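import Pool.Agent.P.MP_26a8c3_nt.QA.W

/-! Shift of a vertical line, growth of `1 / Γ` on strips, and the dual weight `J`. -/

namespace Pool.Agent.P.MP_26a8c3_nt.QA

open Complex MeasureTheory Set Filter Topology
open scoped Real

theorem rect_bound {H : ℂ → ℂ} {σ1 σ2 T1 T2 B : ℝ}
    (hH : DifferentiableOn ℂ H {s | σ1 ≤ s.re ∧ s.re ≤ σ2}) (h12 : σ1 ≤ σ2)
    (hB1 : ∀ σ, σ1 ≤ σ → σ ≤ σ2 → ‖H (σ + T1 * I)‖ ≤ B)
    (hB2 : ∀ σ, σ1 ≤ σ → σ ≤ σ2 → ‖H (σ + T2 * I)‖ ≤ B) :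
    ‖(∫ t in T1..T2, H (σ2 + t * I)) - ∫ t in T1..T2, H (σ1 + t * I)‖ ≤ 2 * B * (σ2 - σ1) := by
  have key := integral_boundary_rect_eq_zero_of_differentiableOn H (σ1 + T1 * I) (σ2 + T2 * I)
    (hH.mono fun s hs => by
      have := hs.1
      simp only [add_re, ofReal_re, mul_re, I_re, mul_zero, ofReal_im, I_im, mul_one, sub_self,
        add_zero, uIcc_of_le h12, mem_preimage] at this
      exact this)
  simp only [add_re, ofReal_re, mul_re, I_re, mul_zero, ofReal_im, I_im, mul_one, sub_self,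
    add_zero, add_im, mul_im, zero_add, smul_eq_mul] at key
  have e : (∫ t in T1..T2, H (σ2 + t * I)) - ∫ t in T1..T2, H (σ1 + t * I) =
      I * ((∫ x in σ1..σ2, H (x + T1 * I)) - ∫ x in σ1..σ2, H (x + T2 * I)) := by
    linear_combination (-I) * key +
      ((∫ t in T1..T2, H (σ2 + t * I)) - ∫ t in T1..T2, H (σ1 + t * I)) * I_mul_I
  rw [e, norm_mul, norm_I, one_mul]
  have k1 := intervalIntegral.norm_integral_le_of_norm_le_const (a := σ1) (b := σ2) (C := B)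
    (f := fun x => H (x + T1 * I)) fun x hx => by
      rw [uIoc_of_le h12] at hx; exact hB1 x hx.1.le hx.2
  have k2 := intervalIntegral.norm_integral_le_of_norm_le_const (a := σ1) (b := σ2) (C := B)
    (f := fun x => H (x + T2 * I)) fun x hx => by
      rw [uIoc_of_le h12] at hx; exact hB2 x hx.1.le hx.2
  rw [abs_of_nonneg (sub_nonneg.2 h12)] at k1 k2
  linarith [norm_sub_le (∫ x in σ1..σ2, H (x + T1 * I)) (∫ x in σ1..σ2, H (x + T2 * I))]

theorem shift_line {H : ℂ → ℂ} {σ1 σ2 : ℝ}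
    (hH : DifferentiableOn ℂ H {s | σ1 ≤ s.re ∧ s.re ≤ σ2}) (h12 : σ1 ≤ σ2) {b : ℝ → ℝ}
    (hb : Tendsto b atTop (𝓝 0))
    (hB : ∀ σ t : ℝ, σ1 ≤ σ → σ ≤ σ2 → ‖H (σ + t * I)‖ ≤ b |t|)
    (i1 : Integrable fun t : ℝ => H (σ1 + t * I)) (i2 : Integrable fun t : ℝ => H (σ2 + t * I)) :
    ∫ t : ℝ, H (σ2 + t * I) = ∫ t : ℝ, H (σ1 + t * I) := by
  have t1 := intervalIntegral_tendsto_integral i1 tendsto_neg_atTop_atBot tendsto_id
  have t2 := intervalIntegral_tendsto_integral i2 tendsto_neg_atTop_atBot tendsto_id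
  have t3 := (t2.sub t1).norm
  have t4 : Tendsto (fun X : ℝ => 2 * b X * (σ2 - σ1)) atTop (𝓝 (2 * 0 * (σ2 - σ1))) :=
    (hb.const_mul 2).mul_const _
  have := le_of_tendsto_of_tendsto t3 t4 (by
    filter_upwards [eventually_ge_atTop 0] with X hX
    refine rect_bound hH h12 (fun σ h h' => ?_) (fun σ h h' => ?_)
    · simpa [abs_of_nonneg hX] using hB σ (-X) h h'
    · simpa [abs_of_nonneg hX] using hB σ X h h')
  simp only [mul_zero, zero_mul, norm_le_zero_iff, sub_eq_zero] at this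
  exact this

theorem integrable_of_gauss {f : ℝ → ℂ} (hf : Continuous f) {C : ℝ}
    (h : ∀ u, ‖f u‖ ≤ C * Real.exp (-(1 / 8) * u ^ 2)) : Integrable f :=
  Integrable.mono' ((integrable_exp_neg_mul_sq (by norm_num : (0 : ℝ) < 1 / 8)).const_mul C)
    hf.aestronglyMeasurable (Eventually.of_forall h)

theorem shift_gauss {H : ℂ → ℂ} (hH : Differentiable ℂ H) {σ1 σ2 C : ℝ} (h12 : σ1 ≤ σ2)
    (hB : ∀ σ u : ℝ, σ1 ≤ σ → σ ≤ σ2 → ‖H (σ + u * I)‖ ≤ C * Real.exp (-(1 / 8) * u ^ 2)) :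
    ∫ t : ℝ, H (σ2 + t * I) = ∫ t : ℝ, H (σ1 + t * I) := by
  refine shift_line hH.differentiableOn h12 (b := fun x => C * Real.exp (-(1 / 8) * x ^ 2)) ?_
    (fun σ u h h' => by simpa only [sq_abs] using hB σ u h h')
    (integrable_of_gauss (hH.continuous.comp (by fun_prop)) fun u => hB σ1 u le_rfl h12)
    (integrable_of_gauss (hH.continuous.comp (by fun_prop)) fun u => hB σ2 u h12 le_rfl)
  have : Tendsto (fun x : ℝ => -(1 / 8) * x ^ 2) atTop atBot :=
    (tendsto_pow_atTop two_ne_zero).const_mul_atTop_of_neg (by norm_num)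
  simpa using (Real.tendsto_exp_atBot.comp this).const_mul C

theorem norm_sin_le_exp (z : ℂ) : ‖Complex.sin z‖ ≤ Real.exp |z.im| := by
  have h1 : ‖Complex.exp (-z * I)‖ ≤ Real.exp |z.im| := by
    rw [Complex.norm_exp, Real.exp_le_exp]; simp [le_abs_self]
  have h2 : ‖Complex.exp (z * I)‖ ≤ Real.exp |z.im| := by
    rw [Complex.norm_exp, Real.exp_le_exp]; simp [neg_le_abs]
  rw [Complex.sin, norm_div, norm_mul, norm_I, mul_one, Complex.norm_two]
  linarith [norm_sub_le (Complex.exp (-z * I)) (Complex.exp (z * I))]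

theorem inv_Gamma_refl {s : ℂ} (hs : s.re < 1) :
    (Complex.Gamma s)⁻¹ = Complex.Gamma (1 - s) * (Complex.sin (π * s) / π) := by
  have h0 : Complex.Gamma (1 - s) ≠ 0 := Complex.Gamma_ne_zero_of_re_pos (by simpa using hs)
  rw [← inv_div, ← Complex.Gamma_mul_Gamma_one_sub, mul_inv, mul_left_comm, mul_inv_cancel₀ h0,
    mul_one]

theorem inv_Gamma_succ_le {s : ℂ} (hs : 1 ≤ |s.im|) :
    ‖(Complex.Gamma (s + 1))⁻¹‖ ≤ ‖(Complex.Gamma s)⁻¹‖ := by
  rw [Complex.one_div_Gamma_eq_self_mul_one_div_Gamma_add_one s, norm_mul]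
  exact le_mul_of_one_le_left (norm_nonneg _) (hs.trans (abs_im_le_norm s))

theorem exists_inv_Gamma_le : ∃ C : ℝ, 0 < C ∧ ∀ s : ℂ, -2 ≤ s.re → s.re ≤ 4 →
    ‖(Complex.Gamma s)⁻¹‖ ≤ C * Real.exp (π * |s.im|) := by
  obtain ⟨C1, h1⟩ := (isCompact_closedBall (0 : ℂ) 5).exists_bound_of_continuousOn
    Complex.differentiable_one_div_Gamma.continuous.continuousOn
  obtain ⟨C2, h2⟩ := (isCompact_Icc (a := (1 : ℝ)) (b := 7)).exists_bound_of_continuousOn
    (f := Real.Gamma) fun x hx => (Real.differentiableAt_Gamma fun m => by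
      have : (0 : ℝ) ≤ m := Nat.cast_nonneg m
      linarith [hx.1]).continuousAt.continuousWithinAt
  refine ⟨|C1| + |C2| + 1, by positivity, fun s ha hb => ?_⟩
  have he : 1 ≤ Real.exp (π * |s.im|) := Real.one_le_exp (by positivity)
  rcases le_total 1 |s.im| with h | h
  · have k1 := inv_Gamma_succ_le (s := s - 4) (by simpa using h)
    have k2 := inv_Gamma_succ_le (s := s - 4 + 1) (by simpa using h)
    have k3 := inv_Gamma_succ_le (s := s - 4 + 1 + 1) (by simpa using h)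
    have k4 := inv_Gamma_succ_le (s := s - 4 + 1 + 1 + 1) (by simpa using h)
    rw [show s - 4 + 1 + 1 + 1 + 1 = s by ring] at k4
    refine (k4.trans (k3.trans (k2.trans k1))).trans ?_
    have hr : (1 - (s - 4)).re = 5 - s.re := by simp; ring
    rw [inv_Gamma_refl (by simp; linarith), norm_mul, norm_div]
    have k5 : ‖Complex.Gamma (1 - (s - 4))‖ ≤ |C1| + |C2| + 1 := by
      refine (norm_Gamma_le (by rw [hr]; linarith)).trans ?_
      have := h2 (5 - s.re) ⟨by linarith, by linarith⟩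
      rw [hr]
      linarith [le_abs_self C2, abs_nonneg C1, Real.le_norm_self (Real.Gamma (5 - s.re))]
    have k6 : ‖Complex.sin (π * (s - 4))‖ / ‖(π : ℂ)‖ ≤ Real.exp (π * |s.im|) := by
      have := norm_sin_le_exp (π * (s - 4))
      rw [show (π * (s - 4) : ℂ).im = π * s.im by simp, abs_mul, abs_of_pos Real.pi_pos] at this
      refine (div_le_self (norm_nonneg _) ?_).trans this
      rw [Complex.norm_real, Real.norm_of_nonneg Real.pi_pos.le]
      linarith [Real.pi_gt_three]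
    gcongr
  · have := h1 s (by
      rw [mem_closedBall_zero_iff]
      refine (Complex.norm_le_abs_re_add_abs_im s).trans ?_
      have : |s.re| ≤ 4 := abs_le.2 ⟨by linarith, hb⟩
      linarith)
    refine le_trans ?_ (le_mul_of_one_le_right (by positivity) he)
    linarith [le_abs_self C1, abs_nonneg C2]

/-- The Mellin transform of `W`. -/
noncomputable def Wt (X t : ℝ) (s : ℂ) : ℂ :=
  (√π : ℝ) * Complex.exp ((s + t * I) * Real.log X + (s + t * I) ^ 2 / 4)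

theorem differentiable_Wt (X t : ℝ) : Differentiable ℂ (Wt X t) := by
  unfold Wt; fun_prop

theorem norm_Wt (X t σ u : ℝ) : ‖Wt X t (σ + u * I)‖ =
    √π * Real.exp (σ * Real.log X + (σ ^ 2 - (u + t) ^ 2) / 4) := by
  rw [Wt, norm_mul, Complex.norm_real, Real.norm_of_nonneg (Real.sqrt_nonneg _), Complex.norm_exp]
  congr 2
  rw [show ((σ : ℂ) + u * I + t * I) * Real.log X + (σ + u * I + t * I) ^ 2 / 4 =
    ((σ * Real.log X + (σ ^ 2 - (u + t) ^ 2) / 4 : ℝ) : ℂ) +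
      (((u + t) * Real.log X + σ * (u + t) / 2 : ℝ) : ℂ) * I by
      push_cast; linear_combination ((u + t : ℂ) ^ 2 / 4) * I_mul_I]
  simp only [add_re, ofReal_re, mul_re, I_re, mul_zero, ofReal_im, I_im, mul_one, sub_self,
    add_zero]

/-- Mellin inversion for `W`. -/
theorem W_eq (X t σ : ℝ) {y : ℝ} (hy : 0 < y) :
    W X t y = (1 / (2 * π) : ℝ) * ∫ u : ℝ, Wt X t (σ + u * I) * (y : ℂ) ^ (-((σ : ℂ) + u * I)) := by
  have h := integral_cexp_quadratic (b := -(1 / 4)) (by norm_num)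
    (I * ((σ + t * I) / 2 + Real.log X - Real.log y))
    ((σ + t * I) * Real.log X + (σ + t * I) ^ 2 / 4 - σ * Real.log y)
  have e : ∀ u : ℝ, Wt X t (σ + u * I) * (y : ℂ) ^ (-((σ : ℂ) + u * I)) = (√π : ℝ) *
      Complex.exp (-(1 / 4) * (u : ℂ) ^ 2 + I * ((σ + t * I) / 2 + Real.log X - Real.log y) * u +
      ((σ + t * I) * Real.log X + (σ + t * I) ^ 2 / 4 - σ * Real.log y)) := fun u => by
    rw [Wt, cpow_eq hy, mul_assoc, ← Complex.exp_add]
    congr 2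
    linear_combination ((u : ℂ) ^ 2 / 4) * I_mul_I
  have e2 : ((π : ℂ) / - -(1 / 4)) ^ (1 / 2 : ℂ) = ((2 * √π : ℝ) : ℂ) := by
    rw [show (2 * √π : ℝ) = √(4 * π) by
      rw [Real.sqrt_mul (by norm_num), show (4 : ℝ) = 2 ^ 2 by norm_num,
        Real.sqrt_sq (by norm_num)], Real.sqrt_eq_rpow, Complex.ofReal_cpow (by positivity)]
    push_cast
    congr 1
    ring
  simp_rw [e]
  rw [integral_const_mul, h, e2, ← mul_assoc, ← mul_assoc, ← ofReal_mul, ← ofReal_mul,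
    show 1 / (2 * π) * √π * (2 * √π) = 1 by
      have := Real.mul_self_sqrt Real.pi_pos.le
      field_simp; nlinarith, ofReal_one, one_mul, W]
  congr 1
  push_cast
  linear_combination (-((σ + t * I) / 2 + Real.log X - Real.log y : ℂ) ^ 2) * I_mul_I

/-- The weight of the dual sum. -/
noncomputable def Jw (t : ℝ) (s : ℂ) : ℂ :=
  Wt 1 t (1 - s) * (Complex.Gamma (s + 1 / 3) * (Complex.Gamma (1 - s + 1 / 3))⁻¹) *
    (Complex.Gamma (s + 2 / 3) * (Complex.Gamma (1 - s + 2 / 3))⁻¹)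

/-- The dual test function computed on the line `Re s = σ`. -/
noncomputable def Jl (σ t y : ℝ) : ℂ :=
  (1 / (2 * π) : ℝ) * ∫ u : ℝ, Jw t (σ + u * I) * (y : ℂ) ^ (1 / 2 - ((σ : ℂ) + u * I))

/-- The dual test function. -/
noncomputable def J (t y : ℝ) : ℂ := Jl (1 / 2) t y

theorem norm_Gamma_conj {z w : ℂ} (h : w = (starRingEnd ℂ) z) :
    ‖Complex.Gamma z * (Complex.Gamma w)⁻¹‖ ≤ 1 := by
  rw [h, Complex.Gamma_conj, norm_mul, norm_inv, Complex.norm_conj]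
  exact mul_inv_le_one

theorem norm_Wt_one (t σ u : ℝ) : ‖Wt 1 t (1 - (σ + u * I))‖ =
    √π * Real.exp (((1 - σ) ^ 2 - (u - t) ^ 2) / 4) := by
  rw [show (1 - (σ + u * I) : ℂ) = ((1 - σ : ℝ) : ℂ) + ((-u : ℝ) : ℂ) * I by push_cast; ring,
    norm_Wt, Real.log_one]
  congr 2
  ring

theorem norm_Jw_half (t u : ℝ) :
    ‖Jw t ((1 / 2 : ℝ) + u * I)‖ ≤ √π * Real.exp ((1 / 4 - (u - t) ^ 2) / 4) := by
  have h1 := norm_Gamma_conj (z := ((1 / 2 : ℝ) + u * I : ℂ) + 2 / 3)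
    (w := 1 - ((1 / 2 : ℝ) + u * I : ℂ) + 2 / 3) (by
      simp only [map_add, conj_ofReal, map_mul, conj_I, map_div₀, map_ofNat]; push_cast; ring)
  have h2 := norm_Gamma_conj (z := ((1 / 2 : ℝ) + u * I : ℂ) + 1 / 3)
    (w := 1 - ((1 / 2 : ℝ) + u * I : ℂ) + 1 / 3) (by
      simp only [map_add, conj_ofReal, map_mul, conj_I, map_div₀, map_ofNat, map_one]
      push_cast; ring)
  rw [Jw, norm_mul, norm_mul, norm_Wt_one, show (1 - 1 / 2 : ℝ) ^ 2 = 1 / 4 by norm_num]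
  calc _ ≤ √π * Real.exp ((1 / 4 - (u - t) ^ 2) / 4) * 1 * 1 := by gcongr
    _ = _ := by ring

theorem norm_Gamma_four {x u : ℝ} (hx : |x| ≤ 2) (hx' : x + 3 ≤ 3) (h0 : x ≠ 0) (h1 : x + 1 ≠ 0)
    (h2 : -2 < x) {z w : ℂ} (hz : z = x + u * I + 4) (hw : w = x - u * I) :
    ‖Complex.Gamma z * (Complex.Gamma w)⁻¹‖ ≤ (3 + |u|) ^ 4 := by
  set s : ℂ := x + u * I with hs
  have ne : ∀ a : ℝ, x + a ≠ 0 → s + a ≠ 0 := fun a ha h => ha (by simpa [hs] using congrArg re h)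
  have le : ∀ a : ℝ, |x + a| ≤ 3 → ‖s + a‖ ≤ 3 + |u| := fun a ha =>
    (Complex.norm_le_abs_re_add_abs_im _).trans (by simpa [hs] using ha)
  have e : Complex.Gamma z = (s + (3 : ℝ)) * ((s + (2 : ℝ)) * ((s + (1 : ℝ)) *
      ((s + (0 : ℝ)) * Complex.Gamma s))) := by
    have k0 := Complex.Gamma_add_one _ (ne 0 (by simpa using h0))
    have k1 := Complex.Gamma_add_one _ (ne 1 h1)
    have k2 := Complex.Gamma_add_one _ (ne 2 (by linarith))
    have k3 := Complex.Gamma_add_one _ (ne 3 (by linarith))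
    push_cast at k0 k1 k2 k3 ⊢
    rw [add_zero] at k0 ⊢
    rw [hz, show s + 4 = s + 3 + 1 by ring, k3, show s + 3 = s + 2 + 1 by ring, k2,
      show s + 2 = s + 1 + 1 by ring, k1, k0]
  have h5 := norm_Gamma_conj (z := s) (w := w) (by rw [hw, hs]; simp [sub_eq_add_neg])
  obtain ⟨ha, hb⟩ := abs_le.1 hx
  have l0 := le 0 (abs_le.2 ⟨by linarith, by linarith⟩)
  have l1 := le 1 (abs_le.2 ⟨by linarith, by linarith⟩)
  have l2 := le 2 (abs_le.2 ⟨by linarith, by linarith⟩)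
  have l3 := le 3 (abs_le.2 ⟨by linarith, by linarith⟩)
  rw [e, mul_assoc, mul_assoc, mul_assoc, mul_assoc, norm_mul, norm_mul, norm_mul, norm_mul]
  calc _ ≤ (3 + |u|) * ((3 + |u|) * ((3 + |u|) * ((3 + |u|) * 1))) := by gcongr
    _ = _ := by ring

theorem norm_Jw_five (t u : ℝ) :
    ‖Jw t ((5 / 2 : ℝ) + u * I)‖ ≤ √π * Real.exp ((9 / 4 - (u - t) ^ 2) / 4) * (3 + |u|) ^ 8 := by
  have h1 := norm_Gamma_four (x := -7 / 6) (u := u) (by rw [abs_le]; norm_num) (by norm_num)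
    (by norm_num) (by norm_num) (by norm_num) (z := ((5 / 2 : ℝ) + u * I : ℂ) + 1 / 3)
    (w := 1 - ((5 / 2 : ℝ) + u * I : ℂ) + 1 / 3) (by push_cast; ring) (by push_cast; ring)
  have h2 := norm_Gamma_four (x := -5 / 6) (u := u) (by rw [abs_le]; norm_num) (by norm_num)
    (by norm_num) (by norm_num) (by norm_num) (z := ((5 / 2 : ℝ) + u * I : ℂ) + 2 / 3)
    (w := 1 - ((5 / 2 : ℝ) + u * I : ℂ) + 2 / 3) (by push_cast; ring) (by push_cast; ring)
  rw [Jw, norm_mul, norm_mul, norm_Wt_one, show (1 - 5 / 2 : ℝ) ^ 2 = 9 / 4 by norm_num]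
  calc _ ≤ √π * Real.exp ((9 / 4 - (u - t) ^ 2) / 4) * (3 + |u|) ^ 4 * (3 + |u|) ^ 4 := by gcongr
    _ = _ := by ring

theorem continuous_Jw (t : ℝ) {σ : ℝ} (hσ : 0 < σ) : Continuous fun u : ℝ => Jw t (σ + u * I) := by
  have h1 := continuous_Gamma_line (σ := σ + 1 / 3) (by linarith)
  have h2 := continuous_Gamma_line (σ := σ + 2 / 3) (by linarith)
  have h3 := Complex.differentiable_one_div_Gamma.continuous
  refine (((differentiable_Wt 1 t).continuous.comp (by fun_prop)).mul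
    ((h1.congr fun u => ?_).mul (h3.comp (by fun_prop)))).mul
    ((h2.congr fun u => ?_).mul (h3.comp (by fun_prop)))
  · congr 1; push_cast; ring
  · congr 1; push_cast; ring

/-- Both lines are dominated by one shifted Gaussian. -/
theorem exists_Jw_le : ∃ C : ℝ, 0 < C ∧ ∀ t u : ℝ,
    ‖Jw t ((1 / 2 : ℝ) + u * I)‖ ≤ C * (1 + |t|) ^ 8 * Real.exp (-(1 / 8) * (u - t) ^ 2) ∧
    ‖Jw t ((5 / 2 : ℝ) + u * I)‖ ≤ C * (1 + |t|) ^ 8 * Real.exp (-(1 / 8) * (u - t) ^ 2) := by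
  refine ⟨√π * Real.exp 129 * 3 ^ 8, by positivity, fun t u => ?_⟩
  have h : √π * Real.exp ((9 / 4 - (u - t) ^ 2) / 4) * (3 + |u|) ^ 8 ≤
      √π * Real.exp 129 * 3 ^ 8 * (1 + |t|) ^ 8 * Real.exp (-(1 / 8) * (u - t) ^ 2) := by
    have h1 : 3 + |u| ≤ 3 * (1 + |t|) * Real.exp |u - t| := by
      have h2 := Real.add_one_le_exp |u - t|
      have h3 : |u| ≤ |u - t| + |t| := by simpa using abs_add_le (u - t) t
      have h4 := abs_nonneg t
      have h5 := abs_nonneg (u - t)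
      calc _ ≤ 3 * (1 + |t|) * (|u - t| + 1) := by nlinarith [mul_nonneg h4 h5]
        _ ≤ _ := by gcongr
    have h2 : Real.exp ((9 / 4 - (u - t) ^ 2) / 4) * Real.exp |u - t| ^ 8 ≤
        Real.exp 129 * Real.exp (-(1 / 8) * (u - t) ^ 2) := by
      rw [← Real.exp_nat_mul, ← Real.exp_add, ← Real.exp_add, Real.exp_le_exp, ← sq_abs (u - t)]
      push_cast
      nlinarith [sq_nonneg (|u - t| - 32)]
    calc _ ≤ √π * Real.exp ((9 / 4 - (u - t) ^ 2) / 4) *
          (3 * (1 + |t|) * Real.exp |u - t|) ^ 8 := by gcongr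
      _ = √π * 3 ^ 8 * (1 + |t|) ^ 8 *
          (Real.exp ((9 / 4 - (u - t) ^ 2) / 4) * Real.exp |u - t| ^ 8) := by ring
      _ ≤ √π * 3 ^ 8 * (1 + |t|) ^ 8 *
          (Real.exp 129 * Real.exp (-(1 / 8) * (u - t) ^ 2)) := by gcongr
      _ = _ := by ring
  refine ⟨(norm_Jw_half t u).trans (le_trans ?_ h), (norm_Jw_five t u).trans h⟩
  refine le_trans ?_ (le_mul_of_one_le_right (by positivity)
    (one_le_pow₀ (by linarith [abs_nonneg u])))
  gcongr
  norm_num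

end Pool.Agent.P.MP_26a8c3_nt.QA
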