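import Pool.Agent.P.MP_26a8c3_nt.QA.Vor

/-! Mean square bound for sums against the dual test function `J`. -/

namespace Pool.Agent.P.MP_26a8c3_nt.QA

open Complex MeasureTheory Set Filter Topology
open scoped Real

/-- Cauchy-Schwarz against a vector of length at most one. -/
theorem norm_sum_mul_le {H : Type*} (s : Finset H) {θ F : H → ℂ} (hθ : ∑ h ∈ s, ‖θ h‖ ^ 2 ≤ 1)
    {b : ℝ} (hb : 0 ≤ b) (hF : ∑ h ∈ s, ‖F h‖ ^ 2 ≤ b ^ 2) : ‖∑ h ∈ s, θ h * F h‖ ≤ b := by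
  refine (norm_sum_le _ _).trans (le_of_sq_le_sq ?_ hb)
  simp only [norm_mul]
  refine (Finset.sum_mul_sq_le_sq_mul_sq s _ _).trans ?_
  calc _ ≤ 1 * b ^ 2 := by gcongr
    _ = _ := one_mul _

/-- Duality. -/
theorem sum_sq_le_of_dual {H : Type*} (s : Finset H) (F : H → ℂ) {b : ℝ}
    (h : ∀ θ : H → ℂ, ∑ h ∈ s, ‖θ h‖ ^ 2 ≤ 1 → ‖∑ h ∈ s, θ h * F h‖ ≤ b) :
    ∑ h ∈ s, ‖F h‖ ^ 2 ≤ b ^ 2 := by
  set S := ∑ h ∈ s, ‖F h‖ ^ 2 with hS
  have h0 : 0 ≤ S := Finset.sum_nonneg fun _ _ => by positivity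
  rcases h0.eq_or_lt with h1 | h1
  · rw [← h1]; positivity
  have h2 := Real.sqrt_pos.2 h1
  have h3 := h (fun x => ((√S)⁻¹ : ℝ) * (starRingEnd ℂ) (F x)) (by
    simp only [norm_mul, mul_pow, Complex.norm_conj, Complex.norm_real, Real.norm_eq_abs, sq_abs]
    rw [← Finset.mul_sum, ← hS, inv_pow, Real.sq_sqrt h0, inv_mul_cancel₀ h1.ne'])
  simp only [mul_assoc, Complex.conj_mul'] at h3
  rw [← Finset.mul_sum] at h3
  norm_cast at h3
  rw [← hS, Real.norm_of_nonneg (by positivity), inv_mul_eq_div, Real.div_sqrt] at h3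
  rw [← Real.sq_sqrt h0]
  gcongr

theorem norm_sum_dyadic_le {ι : Type*} (s : Finset ι) (N : ι → ℝ) (g : ι → ℂ) {V b0 : ℝ}
    {b : ℕ → ℝ} (hV : 0 < V)
    (h0 : ∀ t ⊆ s, (∀ i ∈ t, N i ≤ V) → ‖∑ i ∈ t, g i‖ ≤ b0)
    (h1 : ∀ j : ℕ, ∀ t ⊆ s, (∀ i ∈ t, 2 ^ j * V < N i ∧ N i ≤ 2 ^ (j + 1) * V) →
      ‖∑ i ∈ t, g i‖ ≤ b j) (hb : Summable b) : ‖∑ i ∈ s, g i‖ ≤ b0 + ∑' j, b j := by
  obtain ⟨c, hc, e⟩ := Complex.exists_norm_eq_mul_self (∑ i ∈ s, g i)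
  have k : ∀ t : Finset ι, ∑ i ∈ t, (c * g i).re ≤ ‖∑ i ∈ t, g i‖ := fun t => by
    rw [← Complex.re_sum, ← Finset.mul_sum]
    exact (Complex.re_le_norm _).trans (by rw [norm_mul, hc, one_mul])
  have := sum_dyadic_le s N (fun i => (c * g i).re) hV (fun t ht h => (k t).trans (h0 t ht h))
    (fun j t ht h => (k t).trans (h1 j t ht h)) hb
  rwa [← Complex.re_sum, ← Finset.mul_sum, ← e, ofReal_re] at this

theorem norm_int_le {f : ℝ → ℂ} {K t : ℝ} (hK : 0 ≤ K)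
    (h : ∀ u, ‖f u‖ ≤ K * Real.exp (-(1 / 8) * (u - t) ^ 2)) :
    ‖((1 / (2 * π) : ℝ) : ℂ) * ∫ u, f u‖ ≤ K := by
  have h1 := norm_integral_le_of_norm_le (((integrable_exp_neg_mul_sq
    (by norm_num : (0 : ℝ) < 1 / 8)).comp_sub_right t).const_mul K) (Eventually.of_forall h)
  rw [integral_const_mul, integral_sub_right_eq_self (fun u : ℝ => Real.exp (-(1 / 8) * u ^ 2)) t,
    integral_gaussian] at h1
  have h2 : √(π / (1 / 8)) ≤ 2 * π := Real.sqrt_le_iff.2 ⟨by positivity, by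
    nlinarith [Real.pi_gt_three]⟩
  rw [norm_mul, Complex.norm_real, Real.norm_of_nonneg (by positivity), one_div,
    inv_mul_le_iff₀ (by positivity), mul_comm]
  exact h1.trans (by gcongr)

theorem norm_cpow_half {y : ℝ} (hy : 0 < y) (σ u : ℝ) :
    ‖(y : ℂ) ^ (1 / 2 - ((σ : ℂ) + u * I))‖ = y ^ (1 / 2 - σ) := by
  rw [Complex.norm_cpow_eq_rpow_re_of_pos hy]; simp

theorem norm_Jl_le {σ t K y : ℝ} (hK : 0 ≤ K) (hy : 0 < y)
    (h : ∀ u : ℝ, ‖Jw t (σ + u * I)‖ ≤ K * Real.exp (-(1 / 8) * (u - t) ^ 2)) :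
    ‖Jl σ t y‖ ≤ K * y ^ (1 / 2 - σ) := by
  refine norm_int_le (t := t) (by positivity) fun u => ?_
  rw [norm_mul, norm_cpow_half hy, mul_right_comm]
  gcongr
  exact h u

/-- `J` is bounded and decays like `y ^ (-2)`. -/
theorem exists_J_le : ∃ C : ℝ, 0 < C ∧ ∀ t y : ℝ, 0 < y →
    ‖J t y‖ ≤ C * (1 + |t|) ^ 8 ∧ ‖J t y‖ ≤ C * (1 + |t|) ^ 8 * y ^ (-2 : ℝ) := by
  obtain ⟨C, hC, h⟩ := exists_Jw_le
  refine ⟨C, hC, fun t y hy => ⟨?_, ?_⟩⟩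
  · simpa [J] using norm_Jl_le (by positivity) hy fun u => (h t u).1
  · rw [J_eq t hy (σ := 5 / 2) (by norm_num) le_rfl, show (-2 : ℝ) = 1 / 2 - 5 / 2 by norm_num]
    exact norm_Jl_le (by positivity) hy fun u => (h t u).2

theorem line_block {H ι : Type*} (s : Finset H) (T : Finset ι) {b : H → ι → ℂ} {N : ι → ℝ}
    (hN : ∀ i, 0 < N i) {β : H → ℝ} {V z σ t K D : ℝ} (hV : 0 < V) (hz : 0 < z) (hσ : 1 / 2 ≤ σ)
    (hK : 0 ≤ K) (hD : 0 ≤ D) (hβ : ∀ h ∈ s, 1 ≤ V * β h)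
    (hJ : ∀ u : ℝ, ‖Jw t (σ + u * I)‖ ≤ K * Real.exp (-(1 / 8) * (u - t) ^ 2))
    (hT : ∀ i ∈ T, (N i / (z * V)) ^ (1 / 2 - σ) ≤ 1)
    (hb : ∀ θ : ι → ℂ, (∀ i, ‖θ i‖ ≤ 1) → ∑ h ∈ s, ‖∑ i ∈ T, θ i * b h i‖ ^ 2 ≤ D ^ 2)
    {θ : H → ℂ} (hθ : ∑ h ∈ s, ‖θ h‖ ^ 2 ≤ 1) :
    ‖∑ i ∈ T, ∑ h ∈ s, θ h * (b h i * Jl σ t (N i * β h))‖ ≤ K * (z ^ (1 / 2 - σ) * D) := by
  classical
  have hβ0 : ∀ h ∈ s, 0 < β h := fun h hh =>
    pos_of_mul_pos_left (one_pos.trans_le ((hβ h hh).trans_eq (mul_comm _ _))) hV.le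
  have hi : ∀ i, ∀ h ∈ s, Integrable fun u : ℝ => θ h * b h i *
      (Jw t (σ + u * I) * ((N i * β h : ℝ) : ℂ) ^ (1 / 2 - ((σ : ℂ) + u * I))) := fun i h hh => by
    have hp := mul_pos (hN i) (hβ0 h hh)
    refine Integrable.const_mul (Integrable.mul_bdd (c := (N i * β h) ^ (1 / 2 - σ))
      (Integrable.mono' (((integrable_exp_neg_mul_sq (by norm_num : (0 : ℝ) < 1 / 8)).comp_sub_right
        t).const_mul K) (continuous_Jw t (by linarith)).aestronglyMeasurable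
        (Eventually.of_forall hJ)) (Continuous.aestronglyMeasurable ?_)
      (Eventually.of_forall fun u => (norm_cpow_half hp σ u).le)) _
    simp_rw [cpow_eq hp]; fun_prop
  have e : ∑ i ∈ T, ∑ h ∈ s, θ h * (b h i * Jl σ t (N i * β h)) = ((1 / (2 * π) : ℝ) : ℂ) *
      ∫ u : ℝ, ∑ i ∈ T, ∑ h ∈ s, θ h * b h i *
        (Jw t (σ + u * I) * ((N i * β h : ℝ) : ℂ) ^ (1 / 2 - ((σ : ℂ) + u * I))) := by
    rw [integral_finsetSum _ fun i _ => integrable_finsetSum _ (hi i), Finset.mul_sum]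
    refine Finset.sum_congr rfl fun i _ => ?_
    rw [integral_finsetSum _ (hi i), Finset.mul_sum]
    refine Finset.sum_congr rfl fun h _ => ?_
    rw [integral_const_mul, Jl]; ring
  rw [e]
  refine norm_int_le (t := t) (by positivity) fun u => ?_
  set w : ℂ := 1 / 2 - ((σ : ℂ) + u * I) with hw
  have e2 : ∑ i ∈ T, ∑ h ∈ s, θ h * b h i * (Jw t (σ + u * I) * ((N i * β h : ℝ) : ℂ) ^ w) =
      Jw t (σ + u * I) * ((z : ℂ) ^ w * ∑ h ∈ s, θ h * (((V * β h : ℝ) : ℂ) ^ w *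
        ∑ i ∈ T, (if i ∈ T then ((N i / (z * V) : ℝ) : ℂ) ^ w else 0) * b h i)) := by
    rw [Finset.sum_comm]
    simp only [Finset.mul_sum]
    refine Finset.sum_congr rfl fun h hh => Finset.sum_congr rfl fun i hi => ?_
    have h1 := hβ0 h hh
    have h2 := hN i
    rw [if_pos hi, show N i * β h = z * (V * β h * (N i / (z * V))) by field_simp, ofReal_mul,
      Complex.mul_cpow_ofReal_nonneg hz.le (by positivity), ofReal_mul,
      Complex.mul_cpow_ofReal_nonneg (by positivity) (by positivity)]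
    ring
  have h3 := hb (fun i => if i ∈ T then ((N i / (z * V) : ℝ) : ℂ) ^ w else 0) fun i => by
    split_ifs with hi
    · rw [hw, norm_cpow_half (div_pos (hN i) (by positivity))]; exact hT i hi
    · simp
  have h4 := norm_sum_mul_le s hθ hD (F := fun h => ((V * β h : ℝ) : ℂ) ^ w *
      ∑ i ∈ T, (if i ∈ T then ((N i / (z * V) : ℝ) : ℂ) ^ w else 0) * b h i)
    (le_trans (Finset.sum_le_sum fun h hh => by
      have h6 : (V * β h) ^ (1 / 2 - σ) ≤ 1 :=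
        Real.rpow_le_one_of_one_le_of_nonpos (hβ h hh) (by linarith)
      rw [norm_mul, hw, norm_cpow_half (mul_pos hV (hβ0 h hh))]
      exact pow_le_pow_left₀ (mul_nonneg (Real.rpow_nonneg (mul_pos hV (hβ0 h hh)).le _)
        (norm_nonneg _)) (mul_le_of_le_one_left (norm_nonneg _) h6) 2) h3)
  have h5 := hJ u
  rw [e2, norm_mul, norm_mul, hw, norm_cpow_half hz, ← hw, mul_right_comm]
  gcongr

theorem J_l2_pos : ∃ C : ℝ, 0 < C ∧ ∀ {H ι : Type} (s : Finset H) (b : H → ι → ℂ) (N : ι → ℝ)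
    (β : H → ℝ) (V d t : ℝ), 0 < V → 0 ≤ d → (∀ i, 0 < N i) → (∀ h ∈ s, 1 ≤ V * β h) →
    (∀ h ∈ s, Summable fun i => ‖b h i‖ * N i ^ (-2 : ℝ)) →
    (∀ z : ℝ, 1 ≤ z → ∀ θ : ι → ℂ, (∀ i, ‖θ i‖ ≤ 1) → ∀ T : Finset ι, (∀ i ∈ T, N i ≤ z * V) →
      ∑ h ∈ s, ‖∑ i ∈ T, θ i * b h i‖ ^ 2 ≤ d * z ^ 3) →
    ∑ h ∈ s, ‖∑' i, b h i * J t (N i * β h)‖ ^ 2 ≤ C * (1 + |t|) ^ 16 * d := by
  obtain ⟨C, hC, hJ⟩ := exists_Jw_le
  obtain ⟨C', hC', hJ'⟩ := exists_J_le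
  refine ⟨(13 * C) ^ 2, by positivity, fun s b N β V d t hV hd hN hβ hs hb => ?_⟩
  have hβ0 : ∀ h ∈ s, 0 < β h := fun h hh =>
    pos_of_mul_pos_left (one_pos.trans_le ((hβ h hh).trans_eq (mul_comm _ _))) hV.le
  set K := C * (1 + |t|) ^ 8 with hK
  have hK0 : 0 ≤ K := by positivity
  refine (sum_sq_le_of_dual s _ (b := 13 * (K * √d)) fun θ hθ => ?_).trans (le_of_eq ?_)
  swap
  · rw [mul_pow, mul_pow, Real.sq_sqrt hd, hK]; ring
  have hsum : ∀ h ∈ s, Summable fun i => b h i * J t (N i * β h) := fun h hh => by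
    refine Summable.of_norm_bounded ((hs h hh).mul_left (C' * (1 + |t|) ^ 8 * β h ^ (-2 : ℝ)))
      fun i => ?_
    have := (hJ' t _ (mul_pos (hN i) (hβ0 h hh))).2
    rw [Real.mul_rpow (hN i).le (hβ0 h hh).le] at this
    rw [norm_mul]
    exact (mul_le_mul_of_nonneg_left this (norm_nonneg _)).trans_eq (by ring)
  refine le_of_tendsto' (tendsto_finsetSum s fun h hh =>
    Tendsto.const_mul (θ h) (hsum h hh).hasSum).norm fun T => ?_
  simp only [Finset.mul_sum]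
  rw [Finset.sum_comm]
  have hg : HasSum (fun j : ℕ => 3 * (K * √d) * (3 / 4 : ℝ) ^ j) (3 * (K * √d) * (1 - 3 / 4)⁻¹) :=
    (hasSum_geometric_of_lt_one (by norm_num) (by norm_num)).mul_left _
  refine (norm_sum_dyadic_le T N _ (b0 := K * √d) hV (fun T0 _ h0 => ?_) (fun j T1 _ h1 => ?_)
    hg.summable).trans (by rw [hg.tsum_eq]; exact le_of_eq (by ring))
  · simpa [J] using line_block s T0 hN hV one_pos (σ := 1 / 2) le_rfl hK0 (Real.sqrt_nonneg d) hβ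
      (fun u => (hJ t u).1) (by simp) (fun θ' h' => by
        simpa [Real.sq_sqrt hd] using hb 1 le_rfl θ' h' T0 (by simpa using h0)) hθ
  · have hp : (0 : ℝ) < 2 ^ j := by positivity
    have := line_block s T1 hN hV hp (σ := 5 / 2) (by norm_num) hK0 (D := 3 * 3 ^ j * √d)
      (by positivity) hβ (fun u => (hJ t u).2)
      (fun i hi => Real.rpow_le_one_of_one_le_of_nonpos
        ((one_le_div (by positivity)).2 (h1 i hi).1.le) (by norm_num))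
      (fun θ' h' => (hb (2 ^ (j + 1)) (one_le_pow₀ one_le_two) θ' h' T1
        fun i hi => (h1 i hi).2).trans ?_) hθ
    · rw [Finset.sum_congr rfl fun i _ => Finset.sum_congr rfl fun h hh => by
        rw [J_eq t (mul_pos (hN i) (hβ0 h hh)) (σ := 5 / 2) (by norm_num) le_rfl]]
      refine this.trans (le_of_eq ?_)
      rw [show (1 / 2 - 5 / 2 : ℝ) = -2 by norm_num, Real.rpow_neg hp.le, Real.rpow_two, div_pow,
        show (4 : ℝ) ^ j = (2 ^ j) ^ 2 by rw [← pow_mul, mul_comm, pow_mul]; norm_num]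
      field_simp
    · have h8 : (8 : ℝ) ^ j ≤ 9 ^ j := by gcongr; norm_num
      have e1 : ((2 : ℝ) ^ (j + 1)) ^ 3 = 8 * 8 ^ j := by
        rw [← pow_mul, mul_comm, pow_mul]; norm_num [pow_succ, mul_comm]
      have e2 : ((3 : ℝ) ^ j) ^ 2 = 9 ^ j := by rw [← pow_mul, mul_comm, pow_mul]; norm_num
      rw [mul_pow, mul_pow, Real.sq_sqrt hd, e1, e2, mul_comm]
      gcongr
      norm_num

/-- Mean square bound for a family of sums against `J`. -/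
theorem J_l2 : ∃ C : ℝ, 0 < C ∧ ∀ {H ι : Type} (s : Finset H) (b : H → ι → ℂ) (N : ι → ℝ)
    (β : H → ℝ) (V d t : ℝ), 0 < V → 0 ≤ d → (∀ h ∈ s, ∀ i, b h i ≠ 0 → 0 < N i) →
    (∀ h ∈ s, 1 ≤ V * β h) → (∀ h ∈ s, Summable fun i => ‖b h i‖ * N i ^ (-2 : ℝ)) →
    (∀ z : ℝ, 1 ≤ z → ∀ θ : ι → ℂ, (∀ i, ‖θ i‖ ≤ 1) → ∀ T : Finset ι, (∀ i ∈ T, N i ≤ z * V) →
      ∑ h ∈ s, ‖∑ i ∈ T, θ i * b h i‖ ^ 2 ≤ d * z ^ 3) →
    ∑ h ∈ s, ‖∑' i, b h i * J t (N i * β h)‖ ^ 2 ≤ C * (1 + |t|) ^ 16 * d := by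
  obtain ⟨C, hC, hJ⟩ := J_l2_pos
  refine ⟨C, hC, fun s b N β V d t hV hd hN hβ hs hb => ?_⟩
  have h0 : ∀ h ∈ s, ∀ i, ¬ 0 < N i → b h i = 0 := fun h hh i hi =>
    by_contra fun h' => hi (hN h hh i h')
  refine le_trans (le_of_eq (Finset.sum_congr rfl fun h hh => ?_))
    (hJ s b (fun i => if 0 < N i then N i else 1) β V d t hV hd
      (fun i => by split_ifs with h; exacts [h, one_pos]) hβ
      (fun h hh => (hs h hh).congr fun i => by split_ifs with hi <;> simp [h0 h hh i, *])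
      fun z hz θ hθ T hT => hb z hz θ hθ T fun i hi => ?_)
  · congr 3
    funext i
    split_ifs with hi <;> simp [h0 h hh i, *]
  · have := hT i hi
    split_ifs at this with h
    exacts [this, (not_lt.1 h).trans (by positivity)]

end Pool.Agent.P.MP_26a8c3_nt.QA
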