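import Mathlib

/-! Cahen-Mellin integral and separation of variables in the kernel `exp (-lam / (x * y))`. -/

namespace Pool.Agent.P.MP_26a8c3_nt.QA

open Complex MeasureTheory Set Filter Topology
open scoped Real

theorem norm_Gamma_le {s : ℂ} (hs : 0 < s.re) : ‖Complex.Gamma s‖ ≤ Real.Gamma s.re := by
  rw [Complex.Gamma_eq_integral hs, Real.Gamma_eq_integral hs, Complex.GammaIntegral]
  refine (norm_integral_le_integral_norm _).trans (le_of_eq ?_)
  refine setIntegral_congr_fun measurableSet_Ioi fun x hx => ?_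
  have hx0 : (0 : ℝ) < x := hx
  simp only [norm_mul, Complex.norm_real, Real.norm_eq_abs, abs_of_pos (Real.exp_pos _)]
  rw [Complex.norm_cpow_eq_rpow_re_of_pos hx0]
  simp

theorem norm_Gamma_mul_pow_le {s : ℂ} (hs : 0 < s.re) (k : ℕ) :
    ‖Complex.Gamma s‖ * |s.im| ^ k ≤ Real.Gamma (s.re + k) := by
  induction k generalizing s with
  | zero => simpa using norm_Gamma_le hs
  | succ k ih =>
    have hs0 : s ≠ 0 := fun h => by simp [h] at hs
    have h1 : 0 < (s + 1).re := by simp; linarith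
    have h2 := ih h1
    rw [Complex.Gamma_add_one s hs0, norm_mul] at h2
    simp only [add_im, one_im, add_zero, add_re, one_re] at h2
    have h3 : |s.im| ≤ ‖s‖ := Complex.abs_im_le_norm s
    have h4 : s.re + ((k + 1 : ℕ) : ℝ) = s.re + 1 + k := by push_cast; ring
    rw [h4]
    refine le_trans ?_ h2
    have h5 : 0 ≤ ‖Complex.Gamma s‖ * |s.im| ^ k := by positivity
    calc ‖Complex.Gamma s‖ * |s.im| ^ (k + 1) = |s.im| * (‖Complex.Gamma s‖ * |s.im| ^ k) := by ring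
      _ ≤ ‖s‖ * (‖Complex.Gamma s‖ * |s.im| ^ k) := by gcongr
      _ = _ := by ring

theorem continuous_Gamma_line {σ : ℝ} (hσ : 0 < σ) :
    Continuous fun u : ℝ => Complex.Gamma (σ + u * I) := by
  refine continuous_iff_continuousAt.2 fun u => ?_
  have h : DifferentiableAt ℂ Complex.Gamma (σ + u * I) := by
    refine Complex.differentiableAt_Gamma _ fun m hm => ?_
    have := congrArg Complex.re hm
    simp at this
    have : (0 : ℝ) ≤ m := Nat.cast_nonneg m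
    linarith
  exact h.continuousAt.comp (f := fun u : ℝ => (σ : ℂ) + u * I) (by fun_prop)

theorem integrable_Gamma_pow {σ : ℝ} (hσ : 0 < σ) (k : ℕ) :
    Integrable fun u : ℝ => ‖Complex.Gamma (σ + u * I)‖ * (1 + |u|) ^ k := by
  have hc : Continuous fun u : ℝ => ‖Complex.Gamma (σ + u * I)‖ * (1 + |u|) ^ k :=
    (continuous_Gamma_line hσ).norm.mul (by fun_prop)
  set C : ℝ := 2 ^ (k + 1) * (Real.Gamma σ + Real.Gamma (σ + (k + 2 : ℕ))) with hC
  refine Integrable.mono' ((integrable_inv_one_add_sq).const_mul C) hc.aestronglyMeasurable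
    (Eventually.of_forall fun u => ?_)
  have hre : ((σ : ℂ) + u * I).re = σ := by simp
  have him : ((σ : ℂ) + u * I).im = u := by simp
  have h0 := norm_Gamma_le (s := σ + u * I) (by rw [hre]; exact hσ)
  have h1 := norm_Gamma_mul_pow_le (s := σ + u * I) (by rw [hre]; exact hσ) (k + 2)
  rw [hre] at h0 h1
  rw [him] at h1
  set g := ‖Complex.Gamma (σ + u * I)‖ with hg
  have hg0 : 0 ≤ g := norm_nonneg _
  have hu : 0 ≤ |u| := abs_nonneg u
  rw [Real.norm_of_nonneg (by positivity), ← div_eq_mul_inv, le_div_iff₀ (by positivity)]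
  have h2 : (1 + |u|) ^ (k + 2) ≤ 2 ^ (k + 1) * (1 + |u| ^ (k + 2)) := by
    have := add_pow_le (zero_le_one' ℝ) hu (k + 2)
    simpa using this
  have h3 : 1 + u ^ 2 ≤ (1 + |u|) ^ 2 := by nlinarith [sq_abs u]
  calc g * (1 + |u|) ^ k * (1 + u ^ 2) ≤ g * (1 + |u|) ^ k * (1 + |u|) ^ 2 := by gcongr
    _ = g * (1 + |u|) ^ (k + 2) := by ring
    _ ≤ g * (2 ^ (k + 1) * (1 + |u| ^ (k + 2))) := by gcongr
    _ = 2 ^ (k + 1) * (g + g * |u| ^ (k + 2)) := by ring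
    _ ≤ C := by rw [hC]; gcongr

theorem integrable_Gamma_line {σ : ℝ} (hσ : 0 < σ) :
    Integrable fun u : ℝ => Complex.Gamma (σ + u * I) := by
  have := integrable_Gamma_pow hσ 0
  simp only [pow_zero, mul_one] at this
  exact (integrable_norm_iff (continuous_Gamma_line hσ).aestronglyMeasurable).1 this

/-- The Cahen-Mellin integral. -/
theorem exp_neg_eq {σ y : ℝ} (hσ : 0 < σ) (hy : 0 < y) :
    ((Real.exp (-y) : ℝ) : ℂ) =
      (1 / (2 * π) : ℝ) * ∫ u : ℝ, Complex.Gamma (σ + u * I) * (y : ℂ) ^ (-((σ : ℂ) + u * I)) := by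
  set f : ℝ → ℂ := fun x => ((Real.exp (-x) : ℝ) : ℂ) with hf
  have hm : ∀ s : ℂ, 0 < s.re → mellin f s = Complex.Gamma s := fun s hs => by
    rw [Complex.Gamma_eq_integral hs, Complex.GammaIntegral_eq_mellin]
  have hconv : MellinConvergent f σ := by
    have := Complex.GammaIntegral_convergent (s := (σ : ℂ)) (by simpa using hσ)
    refine this.congr_fun (fun x _ => ?_) measurableSet_Ioi
    simp [hf, mul_comm]
  have hre : ∀ u : ℝ, 0 < ((σ : ℂ) + u * I).re := fun u => by simpa using hσ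
  have hvert : VerticalIntegrable (mellin f) σ := by
    refine (integrable_Gamma_line hσ).congr (Eventually.of_forall fun u => ?_)
    exact (hm _ (hre u)).symm
  have hcont : ContinuousAt f y := by
    have : Continuous f := by rw [hf]; fun_prop
    exact this.continuousAt
  have h := mellinInv_mellin_eq σ f hy hconv hvert hcont
  rw [mellinInv] at h
  rw [show ((Real.exp (-y) : ℝ) : ℂ) = f y from rfl, ← h, Complex.real_smul]
  congr 1
  refine integral_congr_ae (Eventually.of_forall fun u => ?_)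
  simp only [smul_eq_mul]
  rw [hm _ (hre u), mul_comm]

/-- `GK σ k = (1 / 2π) ∫ |Γ (σ + i u)| (1 + |u|) ^ k du`. -/
noncomputable def GK (σ : ℝ) (k : ℕ) : ℝ :=
  1 / (2 * π) * ∫ u : ℝ, ‖Complex.Gamma (σ + u * I)‖ * (1 + |u|) ^ k

theorem GK_nonneg (σ : ℝ) (k : ℕ) : 0 ≤ GK σ k :=
  mul_nonneg (by positivity) (integral_nonneg fun u => by positivity)

/-- The Dirichlet series `∑ α i * x i ^ (σ + i u)`. -/
noncomputable def DS {ι : Type*} (α : ι → ℂ) (x : ι → ℝ) (σ u : ℝ) : ℂ :=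
  ∑' i, α i * (x i : ℂ) ^ ((σ : ℂ) + u * I)

theorem norm_term {x : ℝ} (hx : 0 < x) (a : ℂ) (σ u : ℝ) :
    ‖a * (x : ℂ) ^ ((σ : ℂ) + u * I)‖ = ‖a‖ * x ^ σ := by
  rw [norm_mul, Complex.norm_cpow_eq_rpow_re_of_pos hx]; simp

theorem continuous_cpow_line {x : ℝ} (hx : 0 < x) (σ : ℝ) :
    Continuous fun u : ℝ => (x : ℂ) ^ ((σ : ℂ) + u * I) := by
  have hx0 : (x : ℂ) ≠ 0 := by exact_mod_cast hx.ne'
  simp_rw [Complex.cpow_def_of_ne_zero hx0]
  fun_prop

theorem continuous_DS {ι : Type*} {α : ι → ℂ} {x : ι → ℝ} (hx : ∀ i, 0 < x i) {σ : ℝ}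
    (hs : Summable fun i => ‖α i‖ * x i ^ σ) : Continuous (DS α x σ) :=
  continuous_tsum (fun i => (continuous_cpow_line (hx i) σ).const_mul _) hs
    fun i u => (norm_term (hx i) _ σ u).le

theorem norm_DS_le {ι : Type*} {α : ι → ℂ} {x : ι → ℝ} (hx : ∀ i, 0 < x i) {σ : ℝ}
    (hs : Summable fun i => ‖α i‖ * x i ^ σ) (u : ℝ) :
    ‖DS α x σ u‖ ≤ ∑' i, ‖α i‖ * x i ^ σ :=
  tsum_of_norm_bounded hs.hasSum fun i => (norm_term (hx i) _ σ u).le

/-- One-variable form: a sum against `exp (-lam / x i)` as a Mellin integral. -/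
theorem tsum_exp_eq {ι : Type*} [Countable ι] {α : ι → ℂ} {x : ι → ℝ} (hx : ∀ i, 0 < x i)
    {σ lam : ℝ} (hσ : 0 < σ) (hl : 0 < lam) (hs : Summable fun i => ‖α i‖ * x i ^ σ) :
    ∑' i, α i * ((Real.exp (-(lam / x i)) : ℝ) : ℂ) = (1 / (2 * π) : ℝ) *
      ∫ u : ℝ, Complex.Gamma (σ + u * I) * (lam : ℂ) ^ (-((σ : ℂ) + u * I)) * DS α x σ u := by
  set F : ι → ℝ → ℂ := fun i u => Complex.Gamma (σ + u * I) * (lam : ℂ) ^ (-((σ : ℂ) + u * I)) *
    (α i * (x i : ℂ) ^ ((σ : ℂ) + u * I)) with hF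
  have hneg : ∀ u : ℝ, -((σ : ℂ) + u * I) = ((-σ : ℝ) : ℂ) + ((-u : ℝ) : ℂ) * I := fun u => by
    push_cast; ring
  have hnF : ∀ i u, ‖F i u‖ = ‖Complex.Gamma (σ + u * I)‖ * (lam ^ (-σ) * (‖α i‖ * x i ^ σ)) := by
    intro i u
    simp only [hF]
    rw [norm_mul, norm_term (hx i), norm_mul, Complex.norm_cpow_eq_rpow_re_of_pos hl]
    simp [mul_assoc]
  have hcF : ∀ i, Continuous (F i) := fun i => by
    refine ((continuous_Gamma_line hσ).mul ?_).mul ((continuous_cpow_line (hx i) σ).const_mul _)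
    simp_rw [hneg]
    exact (continuous_cpow_line hl (-σ)).comp continuous_neg
  have hiF : ∀ i, Integrable (F i) := fun i => by
    refine (integrable_norm_iff (hcF i).aestronglyMeasurable).1 ?_
    simp_rw [hnF]
    exact (integrable_Gamma_line hσ).norm.mul_const _
  have hsum : Summable fun i => ∫ u, ‖F i u‖ := by
    simp_rw [hnF, integral_mul_const]
    exact (hs.mul_left _).mul_left _
  have h1 := (hasSum_integral_of_summable_integral_norm hiF hsum).tsum_eq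
  have h2 : ∀ u : ℝ, ∑' i, F i u =
      Complex.Gamma (σ + u * I) * (lam : ℂ) ^ (-((σ : ℂ) + u * I)) * DS α x σ u := fun u => by
    simp only [hF, DS]; rw [tsum_mul_left]
  simp_rw [h2] at h1
  rw [← h1, ← tsum_mul_left]
  refine tsum_congr fun i => ?_
  rw [exp_neg_eq hσ (div_pos hl (hx i)), mul_left_comm, ← integral_const_mul]
  congr 1
  refine integral_congr_ae (Eventually.of_forall fun u => ?_)
  simp only [hF]
  have e : ((lam / x i : ℝ) : ℂ) ^ (-((σ : ℂ) + u * I)) =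
      (lam : ℂ) ^ (-((σ : ℂ) + u * I)) * (x i : ℂ) ^ ((σ : ℂ) + u * I) := by
    rw [div_eq_mul_inv, Complex.ofReal_mul, Complex.mul_cpow_ofReal_nonneg hl.le
      (inv_pos.2 (hx i)).le, Complex.ofReal_inv, Complex.inv_cpow, ← Complex.cpow_neg, neg_neg]
    rw [Complex.arg_ofReal_of_nonneg (hx i).le]
    exact Real.pi_ne_zero.symm
  rw [e]; ring

theorem DS_prod {ι κ : Type*} {α : ι → ℂ} {β : κ → ℂ} {x : ι → ℝ} {y : κ → ℝ}
    (hx : ∀ i, 0 < x i) (hy : ∀ j, 0 < y j) {σ : ℝ}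
    (ha : Summable fun i => ‖α i‖ * x i ^ σ) (hb : Summable fun j => ‖β j‖ * y j ^ σ) (u : ℝ) :
    DS (fun p : ι × κ => α p.1 * β p.2) (fun p => x p.1 * y p.2) σ u = DS α x σ u * DS β y σ u := by
  unfold DS
  rw [tsum_mul_tsum_of_summable_norm (by simpa only [norm_term (hx _)] using ha)
    (by simpa only [norm_term (hy _)] using hb)]
  refine tsum_congr fun p => ?_
  rw [Complex.ofReal_mul, Complex.mul_cpow_ofReal_nonneg (hx _).le (hy _).le]; ring

theorem summable_prod {ι κ : Type*} {α : ι → ℂ} {β : κ → ℂ} {x : ι → ℝ} {y : κ → ℝ}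
    (hx : ∀ i, 0 < x i) (hy : ∀ j, 0 < y j) {σ : ℝ}
    (ha : Summable fun i => ‖α i‖ * x i ^ σ) (hb : Summable fun j => ‖β j‖ * y j ^ σ) :
    Summable fun p : ι × κ => ‖α p.1 * β p.2‖ * (x p.1 * y p.2) ^ σ := by
  have := ha.mul_of_nonneg hb (fun i => by have := hx i; positivity)
    (fun j => by have := hy j; positivity)
  refine this.congr fun p => ?_
  rw [norm_mul, Real.mul_rpow (hx _).le (hy _).le]; ring

/-- The double sum with kernel `exp (-lam / (x i * y j))`. -/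
noncomputable def KS {ι κ : Type*} (α : ι → ℂ) (β : κ → ℂ) (x : ι → ℝ) (y : κ → ℝ) (lam : ℝ) : ℂ :=
  ∑' p : ι × κ, α p.1 * β p.2 * ((Real.exp (-(lam / (x p.1 * y p.2))) : ℝ) : ℂ)

theorem integrable_sep {ι κ : Type*} {α : ι → ℂ} {β : κ → ℂ} {x : ι → ℝ} {y : κ → ℝ}
    (hx : ∀ i, 0 < x i) (hy : ∀ j, 0 < y j) {σ : ℝ} (hσ : 0 < σ)
    (ha : Summable fun i => ‖α i‖ * x i ^ σ) (hb : Summable fun j => ‖β j‖ * y j ^ σ) :
    Integrable fun u : ℝ => ‖Complex.Gamma (σ + u * I)‖ * (‖DS α x σ u‖ * ‖DS β y σ u‖) := by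
  refine Integrable.mono' ((integrable_Gamma_line hσ).norm.mul_const
    ((∑' i, ‖α i‖ * x i ^ σ) * ∑' j, ‖β j‖ * y j ^ σ))
    ((continuous_Gamma_line hσ).norm.mul ((continuous_DS hx ha).norm.mul
      (continuous_DS hy hb).norm)).aestronglyMeasurable (Eventually.of_forall fun u => ?_)
  rw [Real.norm_of_nonneg (by positivity)]
  have h1 := norm_DS_le hx ha u
  have h2 := norm_DS_le hy hb u
  have h3 : 0 ≤ ∑' i, ‖α i‖ * x i ^ σ := (norm_nonneg _).trans h1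
  gcongr

/-- Separation of variables for one double sum. -/
theorem norm_KS_le {ι κ : Type*} [Countable ι] [Countable κ] {α : ι → ℂ} {β : κ → ℂ} {x : ι → ℝ}
    {y : κ → ℝ} (hx : ∀ i, 0 < x i) (hy : ∀ j, 0 < y j) {σ lam : ℝ} (hσ : 0 < σ) (hl : 0 < lam)
    (ha : Summable fun i => ‖α i‖ * x i ^ σ) (hb : Summable fun j => ‖β j‖ * y j ^ σ) :
    ‖KS α β x y lam‖ ≤ lam ^ (-σ) * (1 / (2 * π) *
      ∫ u : ℝ, ‖Complex.Gamma (σ + u * I)‖ * (‖DS α x σ u‖ * ‖DS β y σ u‖)) := by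
  have h := tsum_exp_eq (α := fun p : ι × κ => α p.1 * β p.2) (x := fun p => x p.1 * y p.2)
    (fun p => mul_pos (hx _) (hy _)) hσ hl (summable_prod hx hy ha hb)
  rw [KS, h, norm_mul, Complex.norm_real, Real.norm_of_nonneg (by positivity), mul_left_comm,
    ← integral_const_mul]
  refine mul_le_mul_of_nonneg_left ((norm_integral_le_integral_norm _).trans (le_of_eq ?_))
    (by positivity)
  refine integral_congr_ae (Eventually.of_forall fun u => ?_)
  simp only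
  rw [DS_prod hx hy ha hb, norm_mul, norm_mul, norm_mul, Complex.norm_cpow_eq_rpow_re_of_pos hl]
  simp only [neg_re, add_re, ofReal_re, mul_re, I_re, mul_zero, ofReal_im, I_im, mul_one,
    sub_self, add_zero]
  ring

/-- Separation of variables for a finite family of double sums on one line `Re s = σ`. -/
theorem sum_KS_le {H ι κ : Type*} [Countable ι] [Countable κ] {α : H → ι → ℂ} {β : H → κ → ℂ}
    {x : ι → ℝ} {y : κ → ℝ} (hx : ∀ i, 0 < x i) (hy : ∀ j, 0 < y j) {σ l0 b : ℝ} {k : ℕ}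
    (hσ : 0 < σ) (hl0 : 0 < l0) (s : Finset H) {lam : H → ℝ} (hl : ∀ h ∈ s, l0 ≤ lam h)
    (ha : ∀ h ∈ s, Summable fun i => ‖α h i‖ * x i ^ σ)
    (hb : ∀ h ∈ s, Summable fun j => ‖β h j‖ * y j ^ σ)
    (hbd : ∀ u : ℝ, ∑ h ∈ s, ‖DS (α h) x σ u‖ * ‖DS (β h) y σ u‖ ≤ b * (1 + |u|) ^ k) :
    ∑ h ∈ s, ‖KS (α h) (β h) x y (lam h)‖ ≤ GK σ k * (l0 ^ (-σ) * b) := by
  have h1 : ∀ h ∈ s, ‖KS (α h) (β h) x y (lam h)‖ ≤ l0 ^ (-σ) * (1 / (2 * π) *
      ∫ u : ℝ, ‖Complex.Gamma (σ + u * I)‖ * (‖DS (α h) x σ u‖ * ‖DS (β h) y σ u‖)) := by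
    intro h hh
    refine (norm_KS_le hx hy hσ (hl0.trans_le (hl h hh)) (ha h hh) (hb h hh)).trans ?_
    refine mul_le_mul_of_nonneg_right
      (Real.rpow_le_rpow_of_nonpos hl0 (hl h hh) (by linarith)) ?_
    exact mul_nonneg (by positivity) (integral_nonneg fun u => by positivity)
  refine (Finset.sum_le_sum h1).trans ?_
  rw [← Finset.mul_sum, ← Finset.mul_sum,
    ← integral_finsetSum s fun h hh => integrable_sep hx hy hσ (ha h hh) (hb h hh)]
  have h2 : ∫ u : ℝ, ∑ h ∈ s, ‖Complex.Gamma (σ + u * I)‖ *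
      (‖DS (α h) x σ u‖ * ‖DS (β h) y σ u‖) ≤
      ∫ u : ℝ, b * (‖Complex.Gamma (σ + u * I)‖ * (1 + |u|) ^ k) := by
    refine integral_mono (integrable_finsetSum s fun h hh =>
      integrable_sep hx hy hσ (ha h hh) (hb h hh)) ((integrable_Gamma_pow hσ k).const_mul b)
      fun u => ?_
    simp only
    rw [← Finset.mul_sum, mul_left_comm]
    exact mul_le_mul_of_nonneg_left (hbd u) (norm_nonneg _)
  rw [integral_const_mul] at h2
  have h3 : 0 ≤ l0 ^ (-σ) := by positivity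
  calc _ ≤ l0 ^ (-σ) * (1 / (2 * π) *
        (b * ∫ u : ℝ, ‖Complex.Gamma (σ + u * I)‖ * (1 + |u|) ^ k)) := by gcongr
    _ = _ := by rw [GK]; ring

theorem exists_block {V y : ℝ} (hV : 0 < V) (hy : V < y) :
    ∃ j : ℕ, 2 ^ j * V < y ∧ y ≤ 2 ^ (j + 1) * V := by
  classical
  have hex : ∃ n : ℕ, y ≤ 2 ^ n * V := by
    obtain ⟨n, hn⟩ := pow_unbounded_of_one_lt (y / V) (one_lt_two : (1 : ℝ) < 2)
    exact ⟨n, ((div_lt_iff₀ hV).1 hn).le⟩
  have h0 : Nat.find hex ≠ 0 := fun h => by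
    have := Nat.find_spec hex
    rw [h] at this; simp at this; linarith
  obtain ⟨j, hj⟩ := Nat.exists_eq_succ_of_ne_zero h0
  refine ⟨j, not_le.1 (Nat.find_min hex (by omega)), ?_⟩
  have := Nat.find_spec hex
  rwa [hj] at this

/-- Dyadic splitting of a finite sum above the level `V`. -/
theorem sum_dyadic_le {H : Type*} (s : Finset H) (N f : H → ℝ) {V b0 : ℝ} {b : ℕ → ℝ} (hV : 0 < V)
    (h0 : ∀ t ⊆ s, (∀ h ∈ t, N h ≤ V) → ∑ h ∈ t, f h ≤ b0)
    (h1 : ∀ j : ℕ, ∀ t ⊆ s, (∀ h ∈ t, 2 ^ j * V < N h ∧ N h ≤ 2 ^ (j + 1) * V) →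
      ∑ h ∈ t, f h ≤ b j) (hb : Summable b) :
    ∑ h ∈ s, f h ≤ b0 + ∑' j, b j := by
  classical
  have hb0 : ∀ j, 0 ≤ b j := fun j => by simpa using h1 j ∅ (Finset.empty_subset _) (by simp)
  rw [← Finset.sum_filter_add_sum_filter_not s fun h => N h ≤ V]
  refine add_le_add (h0 _ (Finset.filter_subset _ _) fun h hh => (Finset.mem_filter.1 hh).2) ?_
  set s1 := s.filter fun h => ¬ N h ≤ V with hs1
  have hex : ∀ h, ∃ j : ℕ, h ∈ s1 → 2 ^ j * V < N h ∧ N h ≤ 2 ^ (j + 1) * V := fun h => by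
    by_cases hh : h ∈ s1
    · obtain ⟨j, hj⟩ := exists_block hV (not_le.1 (Finset.mem_filter.1 hh).2)
      exact ⟨j, fun _ => hj⟩
    · exact ⟨0, fun h' => absurd h' hh⟩
  choose J hJ using hex
  rw [← Finset.sum_fiberwise_of_maps_to (s := s1) (t := s1.image J) (g := J)
    fun h hh => Finset.mem_image_of_mem J hh]
  refine le_trans (Finset.sum_le_sum fun j _ => h1 j _ ?_ ?_) (hb.sum_le_tsum _ fun j _ => hb0 j)
  · exact (Finset.filter_subset _ _).trans (Finset.filter_subset _ _)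
  · intro h hh
    obtain ⟨h2, h3⟩ := Finset.mem_filter.1 hh
    rw [← h3]; exact hJ h h2

/-- Separation of variables with the line `ε` below the level `V` and the line `σ` on the dyadic
blocks above it. The kernel is `exp (-c * N h / (x i * y j))`, `N h ≥ 1`. -/
theorem sep_dyadic {H ι κ : Type*} [Countable ι] [Countable κ] {α : H → ι → ℂ} {β : H → κ → ℂ}
    {x : ι → ℝ} {y : κ → ℝ} (hx : ∀ i, 0 < x i) (hy : ∀ j, 0 < y j) {ε σ c V b0 : ℝ} {b : ℕ → ℝ}
    {k : ℕ} (hε : 0 < ε) (hσ : 0 < σ) (hc : 0 < c) (hV : 0 < V) (s : Finset H) {N : H → ℝ}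
    (hN : ∀ h ∈ s, 1 ≤ N h)
    (ha0 : ∀ h ∈ s, Summable fun i => ‖α h i‖ * x i ^ ε)
    (hb0 : ∀ h ∈ s, Summable fun j => ‖β h j‖ * y j ^ ε)
    (ha1 : ∀ h ∈ s, Summable fun i => ‖α h i‖ * x i ^ σ)
    (hb1 : ∀ h ∈ s, Summable fun j => ‖β h j‖ * y j ^ σ)
    (h0 : ∀ t ⊆ s, (∀ h ∈ t, N h ≤ V) → ∀ u : ℝ,
      ∑ h ∈ t, ‖DS (α h) x ε u‖ * ‖DS (β h) y ε u‖ ≤ b0 * (1 + |u|) ^ k)
    (h1 : ∀ j : ℕ, ∀ t ⊆ s, (∀ h ∈ t, 2 ^ j * V < N h ∧ N h ≤ 2 ^ (j + 1) * V) → ∀ u : ℝ,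
      ∑ h ∈ t, ‖DS (α h) x σ u‖ * ‖DS (β h) y σ u‖ ≤ b j * (1 + |u|) ^ k)
    (hs : Summable fun j : ℕ => ((2 : ℝ) ^ j) ^ (-σ) * b j) :
    ∑ h ∈ s, ‖KS (α h) (β h) x y (c * N h)‖ ≤
      GK ε k * (c ^ (-ε) * b0) + GK σ k * ((c * V) ^ (-σ) * ∑' j : ℕ, ((2 : ℝ) ^ j) ^ (-σ) * b j) := by
  rw [← tsum_mul_left, ← tsum_mul_left]
  refine sum_dyadic_le s N _ hV (fun t ht hle => ?_) (fun j t ht hle => ?_)
    ((hs.mul_left _).mul_left _)
  · exact sum_KS_le hx hy hε hc t (fun h hh => le_mul_of_one_le_right hc.le (hN h (ht hh)))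
      (fun h hh => ha0 h (ht hh)) (fun h hh => hb0 h (ht hh)) (h0 t ht hle)
  · have hp : (0 : ℝ) < 2 ^ j := by positivity
    have := sum_KS_le (l0 := c * V * 2 ^ j) (lam := fun h => c * N h) hx hy hσ (by positivity) t
      (fun h hh => by have := (hle h hh).1; nlinarith)
      (fun h hh => ha1 h (ht hh)) (fun h hh => hb1 h (ht hh)) (h1 j t ht hle)
    rw [Real.mul_rpow (by positivity) hp.le, mul_assoc] at this
    exact this

end Pool.Agent.P.MP_26a8c3_nt.QA
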