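import Pool.Agent.P.MP_26a8c3_nt.QA.Gam
import Pool.Agent.P.MP_26a8c3_nt.QK.K

/-! Abstract smooth Voronoi summation for the kernel `kB`. -/

namespace Pool.Agent.P.MP_26a8c3_nt.QA

open Complex MeasureTheory Set Filter Topology
open scoped Real
open QK (kB kB_pos measurable_kB hasMellin_kB)

/-- The Mellin transform of the kernel at `2 s`. -/
noncomputable def Mk (B : ℝ) (s : ℂ) : ℂ :=
  1 / 2 * (B : ℂ) ^ (-(s + 1 / 3)) * Complex.Gamma (s + 1 / 3) * Complex.Gamma (s + 2 / 3)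

/-- The Mellin transform of `W` divided by that of the kernel; an entire function. -/
noncomputable def Hk (X t B : ℝ) (s : ℂ) : ℂ :=
  Wt X t s * (2 * Complex.exp ((s + 1 / 3) * Real.log B)) * (Complex.Gamma (s + 1 / 3))⁻¹ *
    (Complex.Gamma (s + 2 / 3))⁻¹

/-- The test function whose multiplicative convolution with the kernel is `W`. -/
noncomputable def rho (X t B σ v : ℝ) : ℂ :=
  (1 / (2 * π) : ℝ) * ∫ u : ℝ, Hk X t B (σ + u * I) * (v : ℂ) ^ (2 * ((σ : ℂ) + u * I))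

variable {B r X γ : ℝ}

theorem mel_k (hB : 0 < B) (hr : 0 < r) {w : ℂ} (hw : -(2 / 3) < w.re) :
    IntegrableOn (fun v : ℝ => (v : ℂ) ^ (w - 1) * (kB B (r * v) : ℂ)) (Ioi 0) ∧
      ∫ v in Ioi (0 : ℝ), (v : ℂ) ^ (w - 1) * (kB B (r * v) : ℂ) = (r : ℂ) ^ (-w) * Mk B (w / 2) := by
  obtain ⟨h1, h2⟩ := hasMellin_kB hB hw
  refine ⟨(MellinConvergent.comp_mul_left hr).2 h1, ?_⟩
  have := mellin_comp_mul_left (fun v => (kB B v : ℂ)) w hr
  rw [h2] at this
  exact this

theorem mel_k_real (hB : 0 < B) (hr : 0 < r) {x : ℝ} (hx : -(2 / 3) < x) :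
    IntegrableOn (fun v : ℝ => v ^ (x - 1) * kB B (r * v)) (Ioi 0) ∧
      ∫ v in Ioi (0 : ℝ), v ^ (x - 1) * kB B (r * v) ≤ r ^ (-x) * ‖Mk B (x / 2)‖ := by
  obtain ⟨h1, h2⟩ := mel_k hB hr (w := x) (by simpa using hx)
  have e : ∀ v ∈ Ioi (0 : ℝ), (v : ℂ) ^ ((x : ℂ) - 1) * (kB B (r * v) : ℂ) =
      ((v ^ (x - 1) * kB B (r * v) : ℝ) : ℂ) := fun v hv => by
    rw [ofReal_mul, Complex.ofReal_cpow (le_of_lt hv)]; push_cast; rfl
  refine ⟨?_, ?_⟩
  · simpa [IntegrableOn] using ((integrableOn_congr_fun e measurableSet_Ioi).1 h1).re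
  · rw [setIntegral_congr_fun measurableSet_Ioi e, integral_complex_ofReal] at h2
    have h3 := congrArg norm h2
    rw [norm_mul, Complex.norm_cpow_eq_rpow_re_of_pos hr] at h3
    simp only [neg_re, ofReal_re] at h3
    rw [← h3]
    exact (le_abs_self _).trans (by simp)

theorem fubini_k (hB : 0 < B) (hr : 0 < r) {φ z : ℝ → ℂ} (hφ : Integrable φ) (hz : Continuous z)
    {x : ℝ} (hx : -(2 / 3) < x) (hre : ∀ u, (z u).re = x) :
    ∫ v in Ioi (0 : ℝ), (kB B (r * v) : ℂ) * ∫ u, φ u * (v : ℂ) ^ (z u - 1) =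
      ∫ u, φ u * ((r : ℂ) ^ (-z u) * Mk B (z u / 2)) := by
  have hm : Measurable fun v : ℝ => kB B (r * v) := (measurable_kB B).comp (by fun_prop)
  have hi : Integrable (Function.uncurry fun (v u : ℝ) =>
      φ u * ((v : ℂ) ^ (z u - 1) * (kB B (r * v) : ℂ))) ((volume.restrict (Ioi 0)).prod volume) := by
    refine Integrable.mono' ((mel_k_real hB hr hx).1.mul_prod hφ.norm) ?_ ?_
    · refine hφ.aestronglyMeasurable.comp_snd.mul (Measurable.aestronglyMeasurable ?_)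
      have := hz.measurable
      exact ((Complex.measurable_ofReal.comp measurable_fst).pow
        ((this.comp measurable_snd).sub_const 1)).mul
        (Complex.measurable_ofReal.comp (hm.comp measurable_fst))
    · rw [← Measure.restrict_univ (μ := (volume : Measure ℝ)), Measure.prod_restrict,
        ae_restrict_iff' (measurableSet_Ioi.prod MeasurableSet.univ)]
      refine Eventually.of_forall fun p hp => le_of_eq ?_
      have hp0 : 0 < p.1 := hp.1
      simp only [Function.uncurry]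
      rw [norm_mul, norm_mul, Complex.norm_cpow_eq_rpow_re_of_pos hp0, Complex.norm_real,
        Real.norm_of_nonneg (kB_pos hB.le (mul_pos hr hp0)).le, sub_re, hre, one_re, mul_comm]
  have h := integral_integral_swap hi
  simp only [integral_const_mul, fun u => (mel_k hB hr (w := z u) (by rw [hre]; exact hx)).2] at h
  rw [← h]
  refine integral_congr_ae (Eventually.of_forall fun v => ?_)
  simp only
  rw [← integral_const_mul]
  exact integral_congr_ae (Eventually.of_forall fun u => by ring)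

theorem tsum_int_k {ι : Type*} [Countable ι] (hB : 0 < B) {a : ι → ℂ} {r : ι → ℝ}
    (hr : ∀ i, 0 < r i) (ha : Summable fun i => ‖a i‖ * r i ^ (-5 : ℝ)) {g : ℝ → ℂ}
    (hg : Measurable g) {C : ℝ} (hC : ∀ v, 0 < v → ‖g v‖ ≤ C * v ^ (4 : ℝ)) :
    ∑' i, a i * ∫ v in Ioi (0 : ℝ), (kB B (r i * v) : ℂ) * g v =
      ∫ v in Ioi (0 : ℝ), (∑' i, a i * (kB B (r i * v) : ℂ)) * g v := by
  have hC0 : 0 ≤ C := by simpa using (norm_nonneg _).trans (hC 1 one_pos)
  have hk := fun i => mel_k_real hB (hr i) (x := 5) (by norm_num)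
  have hb : ∀ i, ∀ᵐ v ∂(volume.restrict (Ioi (0 : ℝ))), ‖a i * ((kB B (r i * v) : ℂ) * g v)‖ ≤
      ‖a i‖ * C * (v ^ ((5 : ℝ) - 1) * kB B (r i * v)) := fun i => by
    rw [ae_restrict_iff' measurableSet_Ioi]
    refine Eventually.of_forall fun v hv => ?_
    have h0 := (kB_pos hB.le (mul_pos (hr i) hv)).le
    have h1 := hC v hv
    rw [norm_mul, norm_mul, Complex.norm_real, Real.norm_of_nonneg h0,
      show (5 : ℝ) - 1 = 4 by norm_num]
    calc _ ≤ ‖a i‖ * (kB B (r i * v) * (C * v ^ (4 : ℝ))) := by gcongr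
      _ = _ := by ring
  have hi : ∀ i, Integrable (fun v => a i * ((kB B (r i * v) : ℂ) * g v))
      (volume.restrict (Ioi (0 : ℝ))) := fun i => by
    refine Integrable.mono' ((hk i).1.const_mul _) (Measurable.aestronglyMeasurable ?_) (hb i)
    have hm : Measurable fun v : ℝ => kB B (r i * v) := (measurable_kB B).comp (by fun_prop)
    fun_prop
  have h := integral_tsum_of_summable_integral_norm hi (Summable.of_nonneg_of_le
    (fun i => integral_nonneg fun v => norm_nonneg _) (fun i => ?_)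
    (ha.mul_right (C * ‖Mk B ((5 : ℝ) / 2)‖)))
  · simp only [integral_const_mul] at h
    rw [h]
    refine integral_congr_ae (Eventually.of_forall fun v => ?_)
    simp only
    rw [← tsum_mul_right]
    exact tsum_congr fun i => by ring
  · refine (integral_mono_ae (hi i).norm ((hk i).1.const_mul _) (hb i)).trans ?_
    rw [integral_const_mul]
    calc _ ≤ ‖a i‖ * C * (r i ^ (-5 : ℝ) * ‖Mk B ((5 : ℝ) / 2)‖) :=
          mul_le_mul_of_nonneg_left (hk i).2 (by positivity)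
      _ = _ := by ring

theorem differentiable_Hk (X t B : ℝ) : Differentiable ℂ (Hk X t B) := by
  have h := Complex.differentiable_one_div_Gamma
  exact (((differentiable_Wt X t).mul (by fun_prop)).mul (h.comp (by fun_prop))).mul
    (h.comp (by fun_prop))

theorem exists_Hk_le (X t B : ℝ) : ∃ C : ℝ, 0 < C ∧ ∀ σ u : ℝ, -3 / 2 ≤ σ → σ ≤ 5 / 2 →
    ‖Hk X t B (σ + u * I)‖ ≤ C * Real.exp (-(1 / 8) * u ^ 2) := by
  obtain ⟨C, hC, h⟩ := exists_inv_Gamma_le
  refine ⟨√π * 2 * C * C * Real.exp (3 * |Real.log X| + 2 + 3 * |Real.log B| +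
    2 * (|t| / 2 + 2 * π) ^ 2), by positivity, fun σ u h1 h2 => ?_⟩
  have k1 := h (σ + u * I + 1 / 3) (by simp; linarith) (by simp; linarith)
  have k2 := h (σ + u * I + 2 / 3) (by simp; linarith) (by simp; linarith)
  rw [show ((σ : ℂ) + u * I + 1 / 3).im = u by simp] at k1
  rw [show ((σ : ℂ) + u * I + 2 / 3).im = u by simp] at k2
  have k3 : ‖Complex.exp (((σ : ℂ) + u * I + 1 / 3) * Real.log B)‖ =
      Real.exp ((σ + 1 / 3) * Real.log B) := by
    rw [Complex.norm_exp]; congr 1; simp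
  have k4 : ∀ x L : ℝ, |x| ≤ 3 → x * L ≤ 3 * |L| := fun x L hx =>
    (le_abs_self _).trans (by rw [abs_mul]; gcongr)
  have k5 := k4 σ (Real.log X) (abs_le.2 ⟨by linarith, by linarith⟩)
  have k6 := k4 (σ + 1 / 3) (Real.log B) (abs_le.2 ⟨by linarith, by linarith⟩)
  have k7 : -(u * t) ≤ |u| * |t| := by rw [← abs_mul]; exact neg_le_abs _
  have k8 : σ ^ 2 ≤ 8 := by nlinarith
  rw [Hk, norm_mul, norm_mul, norm_mul, norm_mul, norm_Wt, k3, Complex.norm_two]
  calc _ ≤ √π * Real.exp (σ * Real.log X + (σ ^ 2 - (u + t) ^ 2) / 4) *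
        (2 * Real.exp ((σ + 1 / 3) * Real.log B)) * (C * Real.exp (π * |u|)) *
        (C * Real.exp (π * |u|)) := by gcongr
    _ = √π * 2 * C * C * Real.exp (σ * Real.log X + (σ ^ 2 - (u + t) ^ 2) / 4 +
        (σ + 1 / 3) * Real.log B + π * |u| + π * |u|) := by
        simp only [Real.exp_add]; ring
    _ ≤ _ := by
        rw [mul_assoc (√π * 2 * C * C), ← Real.exp_add]
        refine mul_le_mul_of_nonneg_left (Real.exp_le_exp.2 ?_) (by positivity)
        nlinarith [sq_nonneg (|u| - 4 * (|t| / 2 + 2 * π)), sq_abs u, sq_nonneg t]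

theorem integrable_Hk (X t B : ℝ) {σ : ℝ} (h1 : -3 / 2 ≤ σ) (h2 : σ ≤ 5 / 2) :
    Integrable fun u : ℝ => Hk X t B (σ + u * I) := by
  obtain ⟨C, -, h⟩ := exists_Hk_le X t B
  exact integrable_of_gauss ((differentiable_Hk X t B).continuous.comp (by fun_prop))
    fun u => h σ u h1 h2

theorem norm_cpow_two {v : ℝ} (hv : 0 < v) (σ u : ℝ) :
    ‖(v : ℂ) ^ (2 * ((σ : ℂ) + u * I))‖ = v ^ (2 * σ) := by
  rw [Complex.norm_cpow_eq_rpow_re_of_pos hv]; simp

theorem rho_shift (X t B : ℝ) {σ v : ℝ} (h1 : -3 / 2 ≤ σ) (h2 : σ ≤ 5 / 2) (hv : 0 < v) :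
    rho X t B σ v = rho X t B (-3 / 2) v := by
  obtain ⟨C, hC, h⟩ := exists_Hk_le X t B
  have hd : Differentiable ℂ fun s : ℂ => Hk X t B s * (v : ℂ) ^ (2 * s) := by
    simp_rw [cpow_eq hv]
    exact (differentiable_Hk X t B).mul (by fun_prop)
  rw [rho, rho, shift_gauss hd h1 (C := C * Real.exp (5 * |Real.log v|)) fun x u k1 k2 => ?_]
  have k3 : v ^ (2 * x) ≤ Real.exp (5 * |Real.log v|) := by
    rw [Real.rpow_def_of_pos hv, Real.exp_le_exp, mul_comm]
    refine (le_abs_self _).trans ?_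
    rw [abs_mul]
    gcongr
    exact abs_le.2 ⟨by linarith, by linarith⟩
  have k4 := h x u k1 (k2.trans h2)
  rw [norm_mul, norm_cpow_two hv]
  calc _ ≤ C * Real.exp (-(1 / 8) * u ^ 2) * Real.exp (5 * |Real.log v|) := by gcongr
    _ = _ := by ring

theorem norm_rho_le (X t B σ : ℝ) : ∃ C : ℝ, ∀ v, 0 < v → ‖rho X t B σ v‖ ≤ C * v ^ (2 * σ) := by
  refine ⟨1 / (2 * π) * ∫ u : ℝ, ‖Hk X t B (σ + u * I)‖, fun v hv => ?_⟩
  rw [rho, norm_mul, Complex.norm_real, Real.norm_of_nonneg (by positivity), mul_assoc,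
    ← integral_mul_const]
  gcongr
  refine (norm_integral_le_integral_norm _).trans (le_of_eq ?_)
  simp_rw [norm_mul, norm_cpow_two hv]

theorem measurable_rho (X t B σ : ℝ) : Measurable (rho X t B σ) := by
  have h := (differentiable_Hk X t B).continuous.measurable
  have : StronglyMeasurable (Function.uncurry fun v u : ℝ =>
      Hk X t B (σ + u * I) * (v : ℂ) ^ (2 * ((σ : ℂ) + u * I))) :=
    Measurable.stronglyMeasurable (by unfold Function.uncurry; fun_prop)
  exact (this.integral_prod_right (ν := volume)).measurable.const_mul _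

theorem int_left (hB : 0 < B) (hr : 0 < r) (X t : ℝ) :
    ∫ v in Ioi (0 : ℝ), (kB B (r * v) : ℂ) * (rho X t B (5 / 2) v * (v : ℂ)⁻¹) = W X t (r ^ 2) := by
  have h := fubini_k hB hr (integrable_Hk X t B (σ := 5 / 2) (by norm_num) le_rfl)
    (z := fun u : ℝ => 2 * (((5 / 2 : ℝ) : ℂ) + u * I)) (by fun_prop) (x := 5) (by norm_num)
    (fun u => by simp; norm_num)
  rw [W_eq X t (5 / 2) (pow_pos hr 2)]
  have e : ∀ u : ℝ, Wt X t ((5 / 2 : ℝ) + u * I) * ((r ^ 2 : ℝ) : ℂ) ^ (-(((5 / 2 : ℝ) : ℂ) + u * I)) =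
      Hk X t B ((5 / 2 : ℝ) + u * I) * ((r : ℂ) ^ (-(2 * (((5 / 2 : ℝ) : ℂ) + u * I))) *
        Mk B (2 * (((5 / 2 : ℝ) : ℂ) + u * I) / 2)) := fun u => by
    have g1 : Complex.Gamma (((5 / 2 : ℝ) : ℂ) + u * I + 1 / 3) ≠ 0 :=
      Complex.Gamma_ne_zero_of_re_pos (by simp; norm_num)
    have g2 : Complex.Gamma (((5 / 2 : ℝ) : ℂ) + u * I + 2 / 3) ≠ 0 :=
      Complex.Gamma_ne_zero_of_re_pos (by simp; norm_num)
    generalize ((5 / 2 : ℝ) : ℂ) + u * I = s at g1 g2 ⊢
    rw [mul_div_cancel_left₀ s two_ne_zero, Hk, Mk, cpow_eq (pow_pos hr 2), cpow_eq hr, cpow_eq hB,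
      Real.log_pow, neg_mul (s + 1 / 3), Complex.exp_neg,
      show -s * (((2 : ℕ) * Real.log r : ℝ) : ℂ) = -(2 * s) * Real.log r by push_cast; ring]
    have g3 := Complex.exp_ne_zero ((s + 1 / 3) * Real.log B)
    generalize Complex.Gamma (s + 1 / 3) = G1 at g1 ⊢
    generalize Complex.Gamma (s + 2 / 3) = G2 at g2 ⊢
    generalize Complex.exp ((s + 1 / 3) * Real.log B) = E at g3 ⊢
    field_simp
  simp_rw [e]
  rw [← h, ← integral_const_mul]
  refine setIntegral_congr_fun measurableSet_Ioi fun v hv => ?_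
  have hv0 : (v : ℂ) ≠ 0 := ofReal_ne_zero.2 (ne_of_gt hv)
  simp only [rho, Complex.cpow_sub _ _ hv0, Complex.cpow_one, ← mul_div_assoc, integral_div]
  ring

theorem int_right (hB : 0 < B) (hr : 0 < r) (hX : 0 < X) (hγ : 0 < γ) (t : ℝ) {σ : ℝ}
    (h1 : 0 < σ) (h2 : σ ≤ 5 / 2) :
    ∫ v in Ioi (0 : ℝ), (kB B (r * v) : ℂ) * (γ * v * rho X t B (-3 / 2) (γ * v)⁻¹) =
      (X : ℂ) ^ (1 / 2 + t * I) * ((r : ℂ)⁻¹ * Jl σ t (r ^ 2 * (X * B ^ 2 / γ ^ 2))) := by
  have hi := (integrable_Hk X t B (σ := 1 - σ) (by linarith) (by linarith)).comp_neg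
  have e0 : ∀ u : ℝ, ((1 - σ : ℝ) : ℂ) + (-u : ℝ) * I = 1 - (σ + u * I) := fun u => by
    push_cast; ring
  simp only [e0] at hi
  have hc : Continuous fun u : ℝ => (γ : ℂ) ^ (2 * ((σ : ℂ) + u * I) - 1) := by
    simp_rw [cpow_eq hγ]; fun_prop
  have hi2 := hi.mul_bdd (c := γ ^ (2 * σ - 1)) hc.aestronglyMeasurable
    (Eventually.of_forall fun u => by rw [Complex.norm_cpow_eq_rpow_re_of_pos hγ]; simp)
  have h := fubini_k hB hr hi2 (z := fun u : ℝ => 2 * ((σ : ℂ) + u * I)) (by fun_prop)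
    (x := 2 * σ) (by linarith) (fun u => by simp)
  have e : ∀ s : ℂ, Hk X t B (1 - s) * (γ : ℂ) ^ (2 * s - 1) * ((r : ℂ) ^ (-(2 * s)) *
      Mk B (2 * s / 2)) = (X : ℂ) ^ (1 / 2 + t * I) * ((r : ℂ)⁻¹ *
      (Jw t s * ((r ^ 2 * (X * B ^ 2 / γ ^ 2) : ℝ) : ℂ) ^ (1 / 2 - s))) := fun s => by
    have k : Complex.exp ((1 - s + t * I) * Real.log X + (1 - s + t * I) ^ 2 / 4) *
        Complex.exp ((1 - s + 1 / 3) * Real.log B) * Complex.exp ((2 * s - 1) * Real.log γ) *
        Complex.exp (-(2 * s) * Real.log r) * Complex.exp (-(s + 1 / 3) * Real.log B) =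
        Complex.exp ((1 / 2 + t * I) * Real.log X) * Complex.exp (-1 * Real.log r) *
        Complex.exp ((1 - s + t * I) * Real.log 1 + (1 - s + t * I) ^ 2 / 4) *
        Complex.exp ((1 / 2 - s) * Real.log (r ^ 2 * (X * B ^ 2 / γ ^ 2))) := by
      rw [Real.log_mul (by positivity) (by positivity), Real.log_div (by positivity) (by positivity),
        Real.log_mul (by positivity) (by positivity), Real.log_pow, Real.log_pow, Real.log_pow,
        Real.log_one]
      simp only [← Complex.exp_add]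
      congr 1
      push_cast
      ring
    rw [mul_div_cancel_left₀ s two_ne_zero, Hk, Mk, Jw, Wt, Wt, ← Complex.cpow_neg_one (r : ℂ),
      cpow_eq hγ, cpow_eq hr, cpow_eq hr, cpow_eq hB, cpow_eq hX, cpow_eq (by positivity)]
    linear_combination ((√π : ℝ) * (Complex.Gamma (s + 1 / 3) * (Complex.Gamma (1 - s + 1 / 3))⁻¹) *
      (Complex.Gamma (s + 2 / 3) * (Complex.Gamma (1 - s + 2 / 3))⁻¹)) * k
  simp only [e, integral_const_mul] at h
  rw [Jl, mul_left_comm (r : ℂ)⁻¹, mul_left_comm, ← h, ← integral_const_mul]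
  refine setIntegral_congr_fun measurableSet_Ioi fun v hv => ?_
  have hv' : 0 < v := hv
  rw [← rho_shift X t B (σ := 1 - σ) (by linarith) (by linarith) (by positivity), rho,
    ← integral_neg_eq_self, mul_left_comm ((γ : ℂ) * v), ← integral_const_mul, mul_left_comm]
  congr 2
  refine integral_congr_ae (Eventually.of_forall fun u => ?_)
  simp only [e0]
  generalize (σ : ℂ) + u * I = s
  rw [← ofReal_mul, ← Complex.cpow_one ((γ * v : ℝ) : ℂ), cpow_eq (mul_pos hγ hv'), cpow_eq hγ,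
    cpow_eq hv', cpow_eq (by positivity), Real.log_inv, Real.log_mul hγ.ne' hv'.ne', mul_left_comm,
    mul_assoc (Hk X t B (1 - s)), ← Complex.exp_add, ← Complex.exp_add]
  congr 2
  push_cast
  ring

/-- The dual test function does not depend on the line. -/
theorem J_eq (t : ℝ) {y σ : ℝ} (hy : 0 < y) (h1 : 0 < σ) (h2 : σ ≤ 5 / 2) : J t y = Jl σ t y := by
  have hs := Real.sqrt_pos.2 hy
  have k1 := int_right one_pos hs one_pos one_pos t h1 h2
  have k2 := int_right one_pos hs one_pos one_pos t (σ := 1 / 2) (by norm_num) (by norm_num)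
  rw [k1] at k2
  simpa [J, Real.sq_sqrt hy.le, hs.ne'] using k2.symm

theorem voronoi_pos {ι κ : Type*} [Countable ι] [Countable κ] {a : ι → ℂ} {r : ι → ℝ} {b : κ → ℂ}
    {r' : κ → ℝ} {c : ℂ} (hB : 0 < B) (hγ : 0 < γ) (hr : ∀ i, 0 < r i) (hr' : ∀ j, 0 < r' j)
    (ha : Summable fun i => ‖a i‖ * r i ^ (-5 : ℝ)) (hb : Summable fun j => ‖b j‖ * r' j ^ (-5 : ℝ))
    (h : ∀ v : ℝ, 0 < v → ∑' i, a i * (kB B (r i / (γ * v)) : ℂ) =
      c * (γ * v ^ 2) * ∑' j, b j * (kB B (r' j * v) : ℂ)) (hX : 0 < X) (t : ℝ) :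
    ∑' i, a i * W X t (r i ^ 2) = c * (X : ℂ) ^ (1 / 2 + t * I) *
      ∑' j, b j * (r' j : ℂ)⁻¹ * J t (r' j ^ 2 * (X * B ^ 2 / γ ^ 2)) := by
  obtain ⟨C1, hC1⟩ := norm_rho_le X t B (5 / 2)
  obtain ⟨C2, hC2⟩ := norm_rho_le X t B (-3 / 2)
  have m1 := measurable_rho X t B (5 / 2)
  have m2 := measurable_rho X t B (-3 / 2)
  have k1 := tsum_int_k hB hr ha (g := fun v => rho X t B (5 / 2) v * (v : ℂ)⁻¹) (by fun_prop)
    (C := C1) fun v hv => by
      rw [norm_mul, norm_inv, Complex.norm_real, Real.norm_of_nonneg hv.le, ← div_eq_mul_inv,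
        div_le_iff₀ hv, mul_assoc, ← Real.rpow_add_one hv.ne']
      exact (hC1 v hv).trans (le_of_eq (by norm_num))
  have k2 := tsum_int_k hB hr' hb (g := fun v => γ * v * rho X t B (-3 / 2) (γ * v)⁻¹)
    (by fun_prop) (C := C2 * γ ^ (4 : ℝ)) fun v hv => by
      have hp := mul_pos hγ hv
      have := hC2 _ (inv_pos.2 hp)
      rw [Real.inv_rpow hp.le, ← Real.rpow_neg hp.le] at this
      rw [norm_mul, ← ofReal_mul, Complex.norm_real, Real.norm_of_nonneg hp.le, mul_assoc C2,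
        ← Real.mul_rpow hγ.le hv.le, show (4 : ℝ) = -(2 * (-3 / 2)) + 1 by norm_num,
        Real.rpow_add_one hp.ne', ← mul_assoc, mul_comm]
      gcongr
  simp only [int_left hB (hr _), int_right hB (hr' _) hX hγ t (σ := 1 / 2) (by norm_num)
    (by norm_num)] at k1 k2
  set F : ℝ → ℂ := fun v => (∑' i, a i * (kB B (r i * v) : ℂ)) * rho X t B (5 / 2) v with hF
  have k3 := mellin_comp_mul_left (fun v => F v⁻¹) 0 hγ
  rw [mellin_comp_inv] at k3
  simp only [neg_zero, Complex.cpow_zero, one_mul, mellin, zero_sub, Complex.cpow_neg_one,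
    smul_eq_mul] at k3
  calc _ = ∫ v in Ioi (0 : ℝ), (v : ℂ)⁻¹ * F v := by
        rw [k1]; exact integral_congr_ae (Eventually.of_forall fun v => by simp only [hF]; ring)
    _ = c * ∫ v in Ioi (0 : ℝ), (∑' j, b j * (kB B (r' j * v) : ℂ)) *
          (γ * v * rho X t B (-3 / 2) (γ * v)⁻¹) := by
        rw [← k3, ← integral_const_mul]
        refine setIntegral_congr_fun measurableSet_Ioi fun v hv => ?_
        have hv' : 0 < v := hv
        have hv0 : (v : ℂ) ≠ 0 := ofReal_ne_zero.2 hv'.ne'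
        simp only [hF, ← div_eq_mul_inv (r _)]
        rw [h v hv', rho_shift X t B (σ := 5 / 2) (by norm_num) le_rfl (by positivity)]
        generalize ∑' j, b j * (kB B (r' j * v) : ℂ) = S
        field_simp
    _ = _ := by
        rw [← k2, mul_assoc]
        congr 1
        rw [← tsum_mul_left]
        exact tsum_congr fun j => by rw [J]; ring

/-- Smooth Voronoi summation. -/
theorem voronoi {ι κ : Type*} [Countable ι] [Countable κ] {a : ι → ℂ} {r : ι → ℝ} {b : κ → ℂ}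
    {r' : κ → ℝ} {c : ℂ} (hB : 0 < B) (hγ : 0 < γ) (hr : ∀ i, a i ≠ 0 → 0 < r i)
    (hr' : ∀ j, b j ≠ 0 → 0 < r' j)
    (ha : Summable fun i => ‖a i‖ * r i ^ (-5 : ℝ)) (hb : Summable fun j => ‖b j‖ * r' j ^ (-5 : ℝ))
    (h : ∀ v : ℝ, 0 < v → ∑' i, a i * (kB B (r i / (γ * v)) : ℂ) =
      c * (γ * v ^ 2) * ∑' j, b j * (kB B (r' j * v) : ℂ)) (hX : 0 < X) (t : ℝ) :
    ∑' i, a i * W X t (r i ^ 2) = c * (X : ℂ) ^ (1 / 2 + t * I) *
      ∑' j, b j * (r' j : ℂ)⁻¹ * J t (r' j ^ 2 * (X * B ^ 2 / γ ^ 2)) := by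
  classical
  have := voronoi_pos (a := a) (b := b) (c := c) (r := fun i => if a i = 0 then 1 else r i)
    (r' := fun j => if b j = 0 then 1 else r' j) hB hγ
    (fun i => by split_ifs with h0; exacts [one_pos, hr i h0])
    (fun j => by split_ifs with h0; exacts [one_pos, hr' j h0])
    (ha.congr fun i => by split_ifs with h0 <;> simp [h0])
    (hb.congr fun j => by split_ifs with h0 <;> simp [h0]) (fun v hv => ?_) hX t
  · convert this using 3 with i
    · split_ifs with h0 <;> simp [h0]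
    · funext j; split_ifs with h0 <;> simp [h0]
  · convert h v hv using 3 with i
    · split_ifs with h0 <;> simp [h0]
    · funext j; split_ifs with h0 <;> simp [h0]

end Pool.Agent.P.MP_26a8c3_nt.QA
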