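import Pool.Agent.P.MP_26a8c3_nt.QA.Mel

/-! The log-Gaussian weight `W`, its shift rules and the supremum lemma. -/

namespace Pool.Agent.P.MP_26a8c3_nt.QA

open Complex MeasureTheory Set Filter Topology
open scoped Real

/-- `W X t y = exp (-(log y - log X) ^ 2) * y ^ (i t)`. -/
noncomputable def W (X t y : ℝ) : ℂ :=
  Complex.exp (-((Real.log y - Real.log X) ^ 2 : ℝ) + t * Real.log y * I)

theorem norm_W (X t y : ℝ) : ‖W X t y‖ = Real.exp (-(Real.log y - Real.log X) ^ 2) := by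
  rw [W, Complex.norm_exp]
  congr 1
  simp only [add_re, neg_re, ofReal_re, mul_re, ofReal_im, mul_zero, sub_zero, I_re, mul_im,
    zero_mul, add_zero, I_im, mul_one, sub_self]

theorem norm_W_le_one (X t y : ℝ) : ‖W X t y‖ ≤ 1 := by
  rw [norm_W, Real.exp_le_one_iff, neg_nonpos]; positivity

theorem cpow_eq {y : ℝ} (hy : 0 < y) (s : ℂ) : (y : ℂ) ^ s = Complex.exp (s * Real.log y) := by
  rw [Complex.cpow_def_of_ne_zero (by exact_mod_cast hy.ne'), Complex.ofReal_log hy.le, mul_comm]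

theorem norm_W_le {X y : ℝ} (hX : 0 < X) (hy : 0 < y) (t k : ℝ) :
    ‖W X t y‖ ≤ Real.exp (k ^ 2 / 4) * X ^ k * y ^ (-k) := by
  rw [norm_W, Real.rpow_def_of_pos hX, Real.rpow_def_of_pos hy, ← Real.exp_add, ← Real.exp_add,
    Real.exp_le_exp]
  nlinarith [sq_nonneg (Real.log y - Real.log X - k / 2)]

/-- (W1) -/
theorem W_mul_cpow {X y : ℝ} (hX : 0 < X) (hy : 0 < y) (t σ u : ℝ) :
    W X t y * (y : ℂ) ^ ((σ : ℂ) + u * I) =
      ((X ^ σ * Real.exp (σ ^ 2 / 4) : ℝ) : ℂ) * W (X * Real.exp (σ / 2)) (t + u) y := by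
  rw [cpow_eq hy, Real.rpow_def_of_pos hX, ← Real.exp_add, W, W,
    Real.log_mul hX.ne' (Real.exp_pos _).ne', Real.log_exp, Complex.ofReal_exp, ← Complex.exp_add,
    ← Complex.exp_add]
  congr 1
  push_cast
  ring

/-- (W2) -/
theorem W_mul {X d y : ℝ} (hX : 0 < X) (hd : 0 < d) (hy : 0 < y) (t : ℝ) :
    W X t (d * y) = (d : ℂ) ^ ((t : ℂ) * I) * W (X / d) t y := by
  rw [cpow_eq hd, W, W, Real.log_mul hd.ne' hy.ne', Real.log_div hX.ne' hd.ne', ← Complex.exp_add]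
  congr 1
  push_cast
  ring

theorem norm_cpow_I {d : ℝ} (hd : 0 < d) (t : ℝ) : ‖(d : ℂ) ^ ((t : ℂ) * I)‖ = 1 := by
  rw [Complex.norm_cpow_eq_rpow_re_of_pos hd]; simp

theorem conj_W (X t y : ℝ) : (starRingEnd ℂ) (W X t y) = W X (-t) y := by
  rw [W, W, ← Complex.exp_conj]
  congr 1
  simp only [map_add, map_neg, conj_ofReal, map_mul, conj_I]
  push_cast
  ring

theorem summable_W {ι : Type*} {a : ι → ℂ} {N : ι → ℝ} (hN : ∀ i, 0 < N i) {k : ℝ}
    (hs : Summable fun i => ‖a i‖ * N i ^ (-k)) {X : ℝ} (hX : 0 < X) (t σ : ℝ) :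
    Summable fun i => ‖a i * W X t (N i)‖ * N i ^ σ := by
  refine Summable.of_nonneg_of_le (fun i => mul_nonneg (norm_nonneg _) (Real.rpow_nonneg (hN i).le _))
    (fun i => ?_) (hs.mul_left (Real.exp ((k + σ) ^ 2 / 4) * X ^ (k + σ)))
  have h := norm_W_le hX (hN i) t (k + σ)
  have e : N i ^ (-k) = N i ^ (-(k + σ)) * N i ^ σ := by
    rw [← Real.rpow_add (hN i)]; congr 1; ring
  have h0 : 0 ≤ N i ^ σ := Real.rpow_nonneg (hN i).le _
  rw [norm_mul, e]
  calc _ ≤ ‖a i‖ * (Real.exp ((k + σ) ^ 2 / 4) * X ^ (k + σ) * N i ^ (-(k + σ))) * N i ^ σ := by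
        gcongr
    _ = _ := by ring

theorem summable_W0 {ι : Type*} {a : ι → ℂ} {N : ι → ℝ} (hN : ∀ i, 0 < N i) {k : ℝ}
    (hs : Summable fun i => ‖a i‖ * N i ^ (-k)) {X : ℝ} (hX : 0 < X) (t : ℝ) :
    Summable fun i => ‖a i * W X t (N i)‖ := by
  simpa using summable_W hN hs hX t 0

/-- The Dirichlet series of a `W`-weighted sequence is a `W`-weighted sum at a shifted scale. -/
theorem DS_W {ι : Type*} (a : ι → ℂ) {N : ι → ℝ} (hN : ∀ i, 0 < N i) {X : ℝ} (hX : 0 < X)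
    (t σ u : ℝ) :
    DS (fun i => a i * W X t (N i)) N σ u = ((X ^ σ * Real.exp (σ ^ 2 / 4) : ℝ) : ℂ) *
      ∑' i, a i * W (X * Real.exp (σ / 2)) (t + u) (N i) := by
  rw [DS, ← tsum_mul_left]
  refine tsum_congr fun i => ?_
  rw [mul_assoc, W_mul_cpow hX (hN i), mul_left_comm]

theorem norm_DS_W {ι : Type*} (a : ι → ℂ) {N : ι → ℝ} (hN : ∀ i, 0 < N i) {X : ℝ} (hX : 0 < X)
    (t σ u : ℝ) :
    ‖DS (fun i => a i * W X t (N i)) N σ u‖ = X ^ σ * Real.exp (σ ^ 2 / 4) *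
      ‖∑' i, a i * W (X * Real.exp (σ / 2)) (t + u) (N i)‖ := by
  rw [DS_W a hN hX, norm_mul, Complex.norm_real, Real.norm_of_nonneg (by positivity)]

/-- (W3) from a linear counting bound. -/
theorem sum_W_le {ι : Type*} {N : ι → ℝ} (hN : ∀ i, 0 < N i) {C : ℝ}
    (hC : ∀ (Y : ℝ) (s : Finset ι), 0 < Y → (∀ i ∈ s, N i ≤ Y) → (s.card : ℝ) ≤ C * Y) {X : ℝ}
    (hX : 0 < X) (t : ℝ) (s : Finset ι) : ∑ i ∈ s, ‖W X t (N i)‖ ≤ 13 * C * X := by
  have hC0 : 0 ≤ C := by simpa using hC 1 ∅ one_pos (by simp)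
  have hg : HasSum (fun j : ℕ => 6 * C * X * (1 / 2 : ℝ) ^ j) (6 * C * X * 2) :=
    hasSum_geometric_two.mul_left _
  have := sum_dyadic_le s N (fun i => ‖W X t (N i)‖) (b0 := C * X)
    (b := fun j : ℕ => 6 * C * X * (1 / 2 : ℝ) ^ j) hX (fun u _ hu => ?_) (fun j u _ hu => ?_)
    hg.summable
  · rw [hg.tsum_eq] at this; linarith
  · calc _ ≤ ∑ _i ∈ u, (1 : ℝ) := Finset.sum_le_sum fun i _ => norm_W_le_one _ _ _
      _ ≤ _ := by simpa using hC X u hX hu
  · have hp : (0 : ℝ) < 2 ^ j := by positivity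
    have h1 : ∀ i ∈ u, ‖W X t (N i)‖ ≤ 3 / (2 ^ j) ^ 2 := fun i hi => by
      refine (norm_W_le hX (hN i) t 2).trans ?_
      have h2 : Real.exp (2 ^ 2 / 4) ≤ 3 := by
        rw [show (2 : ℝ) ^ 2 / 4 = 1 by norm_num]; linarith [Real.exp_one_lt_d9]
      rw [Real.rpow_neg (hN i).le, Real.rpow_two, Real.rpow_two, ← div_eq_mul_inv,
        div_le_div_iff₀ (pow_pos (hN i) 2) (by positivity)]
      have h3 : (2 ^ j * X) ^ 2 ≤ N i ^ 2 := by gcongr; exact (hu i hi).1.le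
      calc _ ≤ 3 * X ^ 2 * (2 ^ j) ^ 2 := by gcongr
        _ ≤ _ := by nlinarith
    have h2 := hC (2 ^ (j + 1) * X) u (by positivity) fun i hi => (hu i hi).2
    calc _ ≤ ∑ _i ∈ u, 3 / ((2 : ℝ) ^ j) ^ 2 := Finset.sum_le_sum h1
      _ = u.card * (3 / ((2 : ℝ) ^ j) ^ 2) := by simp
      _ ≤ C * (2 ^ (j + 1) * X) * (3 / ((2 : ℝ) ^ j) ^ 2) := by gcongr
      _ = _ := by rw [one_div, inv_pow]; field_simp; ring

theorem norm_le_circle {f : ℂ → ℂ} (hf : Differentiable ℂ f) {c w : ℂ} (hw : ‖w - c‖ ≤ 1) :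
    π * ‖f w‖ ≤ ∫ θ in (0 : ℝ)..2 * π, ‖f (circleMap c 2 θ)‖ := by
  have h := (hf.differentiableOn (s := Metric.closedBall c 2)).circleIntegral_sub_inv_smul
    (w := w) (by rw [mem_ball_iff_norm]; linarith)
  have h1 : ‖(2 * π * I : ℂ) • f w‖ = 2 * (π * ‖f w‖) := by
    rw [norm_smul]; simp [abs_of_pos Real.pi_pos]; ring
  have hc : Continuous fun θ => ‖f (circleMap c 2 θ)‖ :=
    (hf.continuous.comp (continuous_circleMap c 2)).norm
  have h2 : ‖∮ z in C(c, 2), (z - w)⁻¹ • f z‖ ≤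
      ∫ θ in (0 : ℝ)..2 * π, 2 * ‖f (circleMap c 2 θ)‖ := by
    refine intervalIntegral.norm_integral_le_of_norm_le (by positivity)
      (Eventually.of_forall fun θ _ => ?_) ((hc.const_mul 2).intervalIntegrable _ _)
    have h3 : 1 ≤ ‖circleMap c 2 θ - w‖ := by
      have h4 : ‖circleMap c 2 θ - c‖ = 2 := by simp
      have := norm_sub_le_norm_sub_add_norm_sub (circleMap c 2 θ) w c
      linarith
    rw [norm_smul, norm_smul, norm_inv]
    have h5 : ‖deriv (circleMap c 2) θ‖ = 2 := by simp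
    rw [h5]
    gcongr
    exact mul_le_of_le_one_left (norm_nonneg _) (inv_le_one_of_one_le₀ h3)
  rw [h, h1, intervalIntegral.integral_const_mul] at h2
  linarith

/-- The entire function behind the supremum lemma. -/
noncomputable def EW {ι : Type*} (a : ι → ℂ) (N : ι → ℝ) (t : ℝ) (z : ℂ) : ℂ :=
  ∑' i, a i * Complex.exp (-(Real.log (N i) - z) ^ 2 + t * Real.log (N i) * I)

theorem EW_term (y t : ℝ) (z : ℂ) :
    Complex.exp (-(Real.log y - z) ^ 2 + t * Real.log y * I) =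
      Complex.exp ((z.im ^ 2 : ℝ) + (-2 * z.re * z.im : ℝ) * I) *
        W (Real.exp z.re) (t + 2 * z.im) y := by
  rw [W, Real.log_exp, ← Complex.exp_add]
  congr 1
  conv_lhs => rw [← Complex.re_add_im z]
  push_cast
  linear_combination (-(z.im : ℂ) ^ 2) * I_mul_I

theorem norm_EW {ι : Type*} (a : ι → ℂ) (N : ι → ℝ) (t : ℝ) (z : ℂ) :
    ‖EW a N t z‖ = Real.exp (z.im ^ 2) *
      ‖∑' i, a i * W (Real.exp z.re) (t + 2 * z.im) (N i)‖ := by
  simp_rw [EW, EW_term, mul_left_comm (a _)]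
  rw [tsum_mul_left, norm_mul, Complex.exp_add, norm_mul, Complex.norm_exp_ofReal_mul_I,
    Complex.norm_exp_ofReal, mul_one]

theorem differentiable_EW {ι : Type*} {a : ι → ℂ} {N : ι → ℝ} (hN : ∀ i, 0 < N i) {k : ℝ}
    (hs : Summable fun i => ‖a i‖ * N i ^ (-k)) (t : ℝ) : Differentiable ℂ (EW a N t) := by
  intro z
  set R := ‖z‖ + 1 with hR
  have h := differentiableOn_tsum_of_summable_norm (U := Metric.ball (0 : ℂ) R)
    (F := fun i z => a i * Complex.exp (-(Real.log (N i) - z) ^ 2 + t * Real.log (N i) * I))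
    (hs.mul_left (Real.exp (R ^ 2) * (Real.exp (k ^ 2 / 4) * Real.exp (R * |k|))))
    (fun i => Differentiable.differentiableOn (by fun_prop)) Metric.isOpen_ball fun i w hw => ?_
  · exact h.differentiableAt (Metric.isOpen_ball.mem_nhds (by simp [hR]))
  · rw [mem_ball_zero_iff] at hw
    have h1 : |w.re| ≤ R := (abs_re_le_norm w).trans hw.le
    have h2 : |w.im| ≤ R := (abs_im_le_norm w).trans hw.le
    have h3 := norm_W_le (Real.exp_pos w.re) (hN i) (t + 2 * w.im) k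
    have h4 : Real.exp w.re ^ k ≤ Real.exp (R * |k|) := by
      rw [← Real.exp_mul, Real.exp_le_exp]
      refine (le_abs_self _).trans ?_
      rw [abs_mul]; gcongr
    have h5 : Real.exp (w.im ^ 2) ≤ Real.exp (R ^ 2) := by
      rw [Real.exp_le_exp, ← sq_abs]; gcongr
    have h6 : 0 ≤ N i ^ (-k) := Real.rpow_nonneg (hN i).le _
    rw [EW_term, norm_mul, norm_mul, Complex.exp_add, norm_mul, Complex.norm_exp_ofReal_mul_I,
      Complex.norm_exp_ofReal, mul_one]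
    calc _ ≤ ‖a i‖ * (Real.exp (R ^ 2) *
          (Real.exp (k ^ 2 / 4) * Real.exp (R * |k|) * N i ^ (-k))) := by
          gcongr
          exact h3.trans (by gcongr)
      _ = _ := by ring

/-- (Sup): the scale may depend on `m` inside a window of logarithmic radius one. -/
theorem sup_W {M ι : Type*} (s : Finset M) {w : M → ℝ} (hw : ∀ m ∈ s, 0 ≤ w m) {a : M → ι → ℂ}
    {N : ι → ℝ} (hN : ∀ i, 0 < N i) {k : ℝ}
    (hs : ∀ m ∈ s, Summable fun i => ‖a m i‖ * N i ^ (-k)) {X0 t b : ℝ} {ξ : M → ℝ}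
    (hξ0 : ∀ m ∈ s, 0 < ξ m) (hξ : ∀ m ∈ s, |Real.log (ξ m) - Real.log X0| ≤ 1)
    (hb : ∀ X' t' : ℝ, 0 < X' → |Real.log X' - Real.log X0| ≤ 2 → |t' - t| ≤ 4 →
      ∑ m ∈ s, w m * ‖∑' i, a m i * W X' t' (N i)‖ ^ 2 ≤ b) :
    ∑ m ∈ s, w m * ‖∑' i, a m i * W (ξ m) t (N i)‖ ^ 2 ≤ 2 * Real.exp 8 * b := by
  set c : ℂ := ((Real.log X0 : ℝ) : ℂ) with hc
  have hd : ∀ m ∈ s, Differentiable ℂ fun z => EW (a m) N t z ^ 2 := fun m hm =>
    (differentiable_EW hN (hs m hm) t).pow 2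
  have hcont : ∀ m ∈ s, Continuous fun θ => w m * ‖EW (a m) N t (circleMap c 2 θ) ^ 2‖ :=
    fun m hm => ((hd m hm).continuous.comp (continuous_circleMap c 2)).norm.const_mul _
  have h1 : ∀ m ∈ s, π * (w m * ‖∑' i, a m i * W (ξ m) t (N i)‖ ^ 2) ≤
      ∫ θ in (0 : ℝ)..2 * π, w m * ‖EW (a m) N t (circleMap c 2 θ) ^ 2‖ := fun m hm => by
    have h := norm_le_circle (hd m hm) (c := c) (w := ((Real.log (ξ m) : ℝ) : ℂ))
      (by rw [hc, ← ofReal_sub, Complex.norm_real]; exact hξ m hm)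
    rw [norm_pow, norm_EW] at h
    simp only [ofReal_im, ofReal_re, Real.exp_log (hξ0 m hm), mul_zero, add_zero, ne_eq,
      OfNat.ofNat_ne_zero, not_false_eq_true, zero_pow, Real.exp_zero, one_mul] at h
    rw [intervalIntegral.integral_const_mul, mul_left_comm]
    exact mul_le_mul_of_nonneg_left h (hw m hm)
  have h2 : ∀ θ : ℝ, ∑ m ∈ s, w m * ‖EW (a m) N t (circleMap c 2 θ) ^ 2‖ ≤ Real.exp 8 * b := by
    intro θ
    set z := circleMap c 2 θ with hz
    have h4 : ‖z - c‖ = 2 := by simp [hz]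
    have h5 : |z.re - Real.log X0| ≤ 2 := by
      simpa [hc] using (abs_re_le_norm (z - c)).trans h4.le
    have h6 : |z.im| ≤ 2 := by simpa [hc] using (abs_im_le_norm (z - c)).trans h4.le
    have h7 := hb (Real.exp z.re) (t + 2 * z.im) (Real.exp_pos _) (by rwa [Real.log_exp])
      (by rw [add_sub_cancel_left, abs_mul, abs_two]; linarith)
    refine le_trans ?_ (mul_le_mul_of_nonneg_left h7 (Real.exp_pos 8).le)
    rw [Finset.mul_sum]
    refine Finset.sum_le_sum fun m hm => ?_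
    have h8 : Real.exp (z.im ^ 2) ^ 2 ≤ Real.exp 8 := by
      rw [← Real.exp_nat_mul, Real.exp_le_exp, ← sq_abs]
      push_cast
      nlinarith [abs_nonneg z.im]
    have := hw m hm
    rw [norm_pow, norm_EW, mul_pow, mul_left_comm]
    gcongr
  have h3 := Finset.sum_le_sum h1
  rw [← Finset.mul_sum, ← intervalIntegral.integral_finsetSum
    fun m hm => (hcont m hm).intervalIntegrable _ _] at h3
  have h4 := intervalIntegral.integral_mono_on (μ := volume) (a := 0) (b := 2 * π) (by positivity)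
    ((continuous_finsetSum s hcont).intervalIntegrable _ _)
    (continuous_const.intervalIntegrable _ _) fun θ _ => h2 θ
  rw [intervalIntegral.integral_const, smul_eq_mul] at h4
  refine le_of_mul_le_mul_left ?_ Real.pi_pos
  linarith

end Pool.Agent.P.MP_26a8c3_nt.QA
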